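import Pool.Agent.X302.CZ.Conv

/-!
# The growth of the dimensions
-/

set_option autoImplicit false
set_option linter.unusedSectionVars false

open Module

namespace Pool.Agent.X302.CZ

section inv

variable {G : Type} [Fintype G] [DecidableEq G]

lemma exists_onb_fun (V : Submodule ℝ (G → ℝ)) : ∃ (d : ℕ) (b : Basis (Fin d) ℝ V),
    ∀ (x : V) (s : Fin d), b.repr x s = ∑ g, (b s : G → ℝ) g * (x : G → ℝ) g := by
  let E := EuclideanSpace ℝ G
  let φ : (G → ℝ) ≃ₗ[ℝ] E := (WithLp.linearEquiv 2 ℝ (G → ℝ)).symm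
  have hφ : ∀ x y : G → ℝ, inner ℝ (φ x) (φ y) = ∑ g, x g * y g := by
    intro x y
    rw [PiLp.inner_apply]
    apply Finset.sum_congr rfl
    intro g _
    show y g * x g = x g * y g
    ring
  let V' := V.map (φ : (G → ℝ) →ₗ[ℝ] E)
  let e : V ≃ₗ[ℝ] V' := φ.submoduleMap V
  let o := stdOrthonormalBasis ℝ V'
  refine ⟨_, o.toBasis.map e.symm, ?_⟩
  intro x s
  have h1 : (o.toBasis.map e.symm).repr x s = o.toBasis.repr (e x) s := by
    rw [Basis.map_repr]
    rfl
  rw [h1, OrthonormalBasis.coe_toBasis_repr_apply, OrthonormalBasis.repr_apply_apply]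
  have h2 : inner ℝ (o s) (e x) = inner ℝ ((o s : V') : E) ((e x : V') : E) := rfl
  rw [h2]
  have h3 : ((e x : V') : E) = φ (x : G → ℝ) := rfl
  have h4 : ((o s : V') : E) = φ ((o.toBasis.map e.symm) s : G → ℝ) := by
    rw [Basis.map_apply, OrthonormalBasis.coe_toBasis]
    have : (e (e.symm (o s)) : V') = o s := e.apply_symm_apply _
    conv_lhs => rw [← this]
    rfl
  rw [h3, h4, hφ]

theorem inv_space [Group G] (V : Submodule ℝ (G → ℝ))
    (hV : ∀ g : G, ∀ f ∈ V, (fun x => f (g * x)) ∈ V) {f : G → ℝ} (hf : f ∈ V) :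
    Fintype.card G * f 1 ^ 2 ≤ finrank ℝ V * ∑ x, f x ^ 2 := by
  obtain ⟨d, b, hb⟩ := exists_onb_fun V
  have hd : finrank ℝ V = d := by
    rw [finrank_eq_card_basis b, Fintype.card_fin]
  let K : G → ℝ := fun g => ∑ s, (b s : G → ℝ) g ^ 2
  have hK0 : ∀ g, 0 ≤ K g := fun g => Finset.sum_nonneg fun s _ => sq_nonneg _
  have hexp : ∀ f ∈ V, ∀ g, f g = ∑ s, (∑ x, (b s : G → ℝ) x * f x) * (b s : G → ℝ) g := by
    intro f hf g
    have h := b.sum_repr ⟨f, hf⟩
    have h2 := congrArg (fun y : V => (y : G → ℝ) g) h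
    simp only [Submodule.coe_sum, Submodule.coe_smul, hb, Finset.sum_apply, Pi.smul_apply,
      smul_eq_mul] at h2
    exact h2.symm
  have hpars : ∀ f ∈ V, ∑ s, (∑ x, (b s : G → ℝ) x * f x) ^ 2 = ∑ x, f x ^ 2 := by
    intro f hf
    have h1 : ∑ x, f x ^ 2 = ∑ x, f x * ∑ s, (∑ x, (b s : G → ℝ) x * f x) * (b s : G → ℝ) x := by
      apply Finset.sum_congr rfl
      intro x _
      rw [← hexp f hf x, sq]
    rw [h1]
    simp only [Finset.mul_sum]
    rw [Finset.sum_comm]
    apply Finset.sum_congr rfl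
    intro s _
    rw [sq, Finset.mul_sum]
    apply Finset.sum_congr rfl
    intro x _
    ring
  have hcs : ∀ f ∈ V, ∀ g, f g ^ 2 ≤ (∑ x, f x ^ 2) * K g := by
    intro f hf g
    rw [← hpars f hf]
    conv_lhs => rw [hexp f hf g]
    exact Finset.sum_mul_sq_le_sq_mul_sq _ _ _
  have horth : ∀ s t, ∑ x, (b s : G → ℝ) x * (b t : G → ℝ) x = if t = s then 1 else 0 := by
    intro s t
    rw [← hb (b t) s, Basis.repr_self, Finsupp.single_apply]
  let k : G → ℝ := ∑ s, (b s : G → ℝ) 1 • (b s : G → ℝ)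
  have hk : k ∈ V := Submodule.sum_mem _ fun s _ => Submodule.smul_mem _ _ (b s).2
  have hk1 : k 1 = K 1 := by
    simp only [k, K, Finset.sum_apply, Pi.smul_apply, smul_eq_mul, sq]
  have hkc : ∀ s, ∑ x, (b s : G → ℝ) x * k x = (b s : G → ℝ) 1 := by
    intro s
    simp only [k, Finset.sum_apply, Pi.smul_apply, smul_eq_mul, Finset.mul_sum]
    rw [Finset.sum_comm]
    have h1 : ∀ t, ∑ x, (b s : G → ℝ) x * ((b t : G → ℝ) 1 * (b t : G → ℝ) x) =
        (b t : G → ℝ) 1 * if t = s then 1 else 0 := by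
      intro t
      rw [← horth s t, Finset.mul_sum]
      apply Finset.sum_congr rfl
      intro x _
      ring
    rw [Finset.sum_congr rfl fun t _ => h1 t]
    simp
  have hkk : ∑ x, k x ^ 2 = K 1 := by
    rw [← hpars k hk]
    apply Finset.sum_congr rfl
    intro s _
    rw [hkc]
  have hle : ∀ g, K 1 ≤ K g := by
    intro g
    have h1 := hcs _ (hV g⁻¹ k hk) g
    have h2 : ∑ x, k (g⁻¹ * x) ^ 2 = K 1 := by
      rw [← hkk]
      exact Equiv.sum_comp (Equiv.mulLeft g⁻¹) fun x => k x ^ 2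
    simp only [inv_mul_cancel, h2, hk1] at h1
    rcases (hK0 1).lt_or_eq with h3 | h3
    · rw [sq] at h1
      exact le_of_mul_le_mul_left h1 h3
    · rw [← h3]
      exact hK0 g
  have hsum : ∑ g, K g = d := by
    simp only [K]
    rw [Finset.sum_comm]
    have h1 : ∀ s, ∑ g, (b s : G → ℝ) g ^ 2 = 1 := by
      intro s
      have := horth s s
      rw [if_pos rfl] at this
      rw [← this]
      apply Finset.sum_congr rfl
      intro x _
      ring
    rw [Finset.sum_congr rfl fun s _ => h1 s]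
    simp
  have hK1 : Fintype.card G * K 1 ≤ d := by
    rw [← hsum]
    have := Finset.card_nsmul_le_sum Finset.univ K (K 1) fun g _ => hle g
    rwa [Finset.card_univ, nsmul_eq_mul] at this
  rw [hd]
  have h5 := hcs f hf 1
  have h6 : 0 ≤ ∑ x, f x ^ 2 := Finset.sum_nonneg fun x _ => sq_nonneg _
  calc (Fintype.card G : ℝ) * f 1 ^ 2 ≤ Fintype.card G * ((∑ x, f x ^ 2) * K 1) := by
        apply mul_le_mul_of_nonneg_left h5 (Nat.cast_nonneg _)
    _ = (Fintype.card G * K 1) * ∑ x, f x ^ 2 := by ring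
    _ ≤ d * ∑ x, f x ^ 2 := mul_le_mul_of_nonneg_right hK1 h6

end inv

section count

variable {W : Type} [Fintype W] [DecidableEq W]

/-- The sum of the numbers of words fixed by a permutation. -/
lemma sum_fix_le (n : ℕ) :
    ∑ σ : Equiv.Perm (Fin n), Fintype.card {w : Fin n → W // w ∘ σ = w} ≤
      (n + 1) ^ Fintype.card W * Nat.factorial n := by
  classical
  let _ : MulAction (Equiv.Perm (Fin n)) (Fin n → W) := arrowAction
  have hact : ∀ (σ : Equiv.Perm (Fin n)) (w : Fin n → W), σ • w = w ∘ (σ⁻¹ : Equiv.Perm (Fin n)) :=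
    fun σ w => rfl
  have h1 := MulAction.sum_card_fixedBy_eq_card_orbits_mul_card_group (Equiv.Perm (Fin n))
    (Fin n → W)
  have h2 : ∀ σ : Equiv.Perm (Fin n), Fintype.card {w : Fin n → W // w ∘ σ = w} =
      Fintype.card (MulAction.fixedBy (Fin n → W) σ) := by
    intro σ
    apply Fintype.card_congr
    apply Equiv.subtypeEquivRight
    intro w
    rw [MulAction.mem_fixedBy, hact]
    constructor
    · intro h
      conv_lhs => rw [← h]
      funext a
      simp
    · intro h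
      conv_lhs => rw [← h]
      funext a
      simp
  rw [Finset.sum_congr rfl fun σ _ => h2 σ, h1, Fintype.card_perm, Fintype.card_fin]
  apply Nat.mul_le_mul_right
  let cnt : (Fin n → W) → (W → Fin (n + 1)) := fun w c =>
    ⟨Fintype.card {a // w a = c}, by
      have := Fintype.card_subtype_le fun a : Fin n => w a = c
      rw [Fintype.card_fin] at this
      omega⟩
  have hcnt : ∀ w w' : Fin n → W, cnt w = cnt w' → ∃ σ : Equiv.Perm (Fin n), w' ∘ σ = w := by
    intro w w' h
    have h3 : ∀ c, Fintype.card {a // w a = c} = Fintype.card {a // w' a = c} := by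
      intro c
      have := congrArg Fin.val (congrFun h c)
      exact this
    refine ⟨(Equiv.sigmaFiberEquiv w).symm.trans
      ((Equiv.sigmaCongrRight fun c => Fintype.equivOfCardEq (h3 c)).trans
        (Equiv.sigmaFiberEquiv w')), ?_⟩
    funext a
    exact ((Fintype.equivOfCardEq (h3 (w a))) ⟨a, rfl⟩).2
  have hinv : ∀ w w' : Fin n → W, (MulAction.orbitRel (Equiv.Perm (Fin n)) (Fin n → W)) w w' →
      cnt w = cnt w' := by
    rintro w w' ⟨σ, rfl⟩
    funext c
    apply Fin.ext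
    show Fintype.card {a // (σ • w') a = c} = Fintype.card {a // w' a = c}
    apply Fintype.card_congr
    refine (Equiv.subtypeEquiv (σ⁻¹ : Equiv.Perm (Fin n)) ?_)
    intro a
    rfl
  let Φ : Quotient (MulAction.orbitRel (Equiv.Perm (Fin n)) (Fin n → W)) → (W → Fin (n + 1)) :=
    Quotient.lift cnt hinv
  have hΦ : Function.Injective Φ := by
    intro x y
    refine Quotient.inductionOn₂ x y ?_
    intro w w' h
    obtain ⟨σ, hσ⟩ := hcnt w w' h
    apply Quotient.sound
    show w ∈ MulAction.orbit _ w'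
    refine ⟨σ⁻¹, ?_⟩
    show σ⁻¹ • w' = w
    rw [hact, inv_inv, hσ]
  have h4 := Fintype.card_le_of_injective Φ hΦ
  rwa [Fintype.card_fun, Fintype.card_fin] at h4

end count

section growth

variable {κ : Type} [Fintype κ] [DecidableEq κ]

variable (κ) in
/-- The span of the columns. -/
def Col (n : ℕ) : Submodule ℝ (Equiv.Perm (Fin n) → ℝ) :=
  Submodule.span ℝ (Set.range fun (p : (Fin n → κ) × (Fin n → κ)) (σ : Equiv.Perm (Fin n)) =>
    del σ p.1 p.2)

lemma finrank_Col (n : ℕ) : finrank ℝ (Col κ n) = tdim κ n := by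
  let M : Matrix (Equiv.Perm (Fin n)) ((Fin n → κ) × (Fin n → κ)) ℝ :=
    Matrix.of fun σ p => del σ p.1 p.2
  have h1 : M.rank = finrank ℝ (Col κ n) := M.rank_eq_finrank_span_cols
  have h2 : M.rank = finrank ℝ (Submodule.span ℝ (Set.range M.row)) :=
    M.rank_eq_finrank_span_row
  rw [← h1, h2, tdim]
  let φ : ((Fin n → κ) × (Fin n → κ) → ℝ) ≃ₗ[ℝ] ((Fin n → κ) → (Fin n → κ) → ℝ) :=
    LinearEquiv.curry ℝ ℝ _ _
  have h3 : (Submodule.span ℝ (Set.range M.row)).map
      (φ : ((Fin n → κ) × (Fin n → κ) → ℝ) →ₗ[ℝ] _) = Tsp κ (Fin n) (Fin n) := by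
    rw [Submodule.map_span, Tsp]
    congr 1
    ext f
    constructor
    · rintro ⟨_, ⟨σ, rfl⟩, rfl⟩
      exact ⟨σ, rfl⟩
    · rintro ⟨σ, rfl⟩
      exact ⟨_, ⟨σ, rfl⟩, rfl⟩
  rw [← h3]
  exact (LinearEquiv.finrank_map_eq φ _).symm

/-- **The growth.** -/
theorem growth (n : ℕ) :
    (Fintype.card κ ^ n) ^ 2 ≤ tdim κ n * (n + 1) ^ Fintype.card (κ × κ) := by
  classical
  let χ : Equiv.Perm (Fin n) → ℝ := ∑ i : Fin n → κ, fun σ => del σ i i
  have hχ : χ ∈ Col κ n := Submodule.sum_mem _ fun i _ => Submodule.subset_span ⟨(i, i), rfl⟩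
  have hinv : ∀ g : Equiv.Perm (Fin n), ∀ f ∈ Col κ n, (fun x => f (g * x)) ∈ Col κ n := by
    intro g f hf
    let Φ : (Equiv.Perm (Fin n) → ℝ) →ₗ[ℝ] (Equiv.Perm (Fin n) → ℝ) :=
      { toFun := fun f x => f (g * x)
        map_add' := fun _ _ => rfl
        map_smul' := fun _ _ => rfl }
    have h1 : Col κ n ≤ (Col κ n).comap Φ := by
      rw [Col, Submodule.span_le]
      rintro _ ⟨p, rfl⟩
      apply Submodule.subset_span
      exact ⟨(p.1 ∘ g, p.2), rfl⟩
    exact h1 hf
  have h1 := inv_space (Col κ n) hinv hχ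
  rw [finrank_Col] at h1
  have hχ1 : χ 1 = (Fintype.card κ : ℝ) ^ n := by
    simp only [χ, Finset.sum_apply]
    rw [Finset.sum_congr rfl fun i _ => del_of (e := (1 : Equiv.Perm (Fin n))) fun a => rfl]
    simp
  have hfix : ∀ σ : Equiv.Perm (Fin n), χ σ = Fintype.card {i : Fin n → κ // i ∘ σ = i} := by
    intro σ
    simp only [χ, Finset.sum_apply]
    have h2 : ∀ i : Fin n → κ, (del σ i i : ℝ) = if i ∘ σ = i then 1 else 0 := by
      intro i
      by_cases h : i ∘ σ = i
      · rw [if_pos h, del_of]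
        intro a
        exact (congrFun h a).symm
      · rw [if_neg h, del_of_not]
        intro h2
        exact h (funext fun a => (h2 a).symm)
    rw [Finset.sum_congr rfl fun i _ => h2 i, Finset.sum_boole, Fintype.card_subtype]
  have hsq : ∀ σ : Equiv.Perm (Fin n), χ σ ^ 2 =
      Fintype.card {w : Fin n → κ × κ // w ∘ σ = w} := by
    intro σ
    rw [hfix, sq, ← Nat.cast_mul, ← Fintype.card_prod]
    congr 1
    apply Fintype.card_congr
    refine
      { toFun := fun p => ⟨fun a => (p.1.1 a, p.2.1 a), ?_⟩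
        invFun := fun w => (⟨fun a => (w.1 a).1, ?_⟩, ⟨fun a => (w.1 a).2, ?_⟩)
        left_inv := fun p => rfl
        right_inv := fun w => rfl }
    · funext a
      exact Prod.ext (congrFun p.1.2 a) (congrFun p.2.2 a)
    · funext a
      exact congrArg Prod.fst (congrFun w.2 a)
    · funext a
      exact congrArg Prod.snd (congrFun w.2 a)
  have h3 : ∑ σ, χ σ ^ 2 ≤ ((n + 1) ^ Fintype.card (κ × κ) * Nat.factorial n : ℕ) := by
    rw [Finset.sum_congr rfl fun σ _ => hsq σ]
    rw [← Nat.cast_sum]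
    exact Nat.cast_le.2 (sum_fix_le n)
  rw [hχ1, Fintype.card_perm, Fintype.card_fin] at h1
  have hn : (0 : ℝ) < Nat.factorial n := Nat.cast_pos.2 (Nat.factorial_pos n)
  have h4 : (Nat.factorial n : ℝ) * ((Fintype.card κ : ℝ) ^ n) ^ 2 ≤
      Nat.factorial n * (tdim κ n * (n + 1 : ℝ) ^ Fintype.card (κ × κ)) := by
    refine h1.trans ?_
    have h5 := mul_le_mul_of_nonneg_left h3 (Nat.cast_nonneg (α := ℝ) (tdim κ n))
    refine h5.trans (le_of_eq ?_)
    push_cast
    ring
  have h6 := le_of_mul_le_mul_left h4 hn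
  exact_mod_cast h6

end growth

end Pool.Agent.X302.CZ
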