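import Pool.Agent.X302.CZ.Conv

/-!
# Leading words: the codimension of the ideal of an element
-/

set_option autoImplicit false
set_option linter.unusedSectionVars false

open Module

namespace Pool.Agent.X302.CZ

section avoid

variable {W : Type} [Fintype W] [DecidableEq W]

/-- The word `z` contains the word `w` as a subsequence. -/
def Contains {n m : ℕ} (w : Fin m → W) (z : Fin n → W) : Prop :=
  ∃ S : Fin m → Fin n, StrictMono S ∧ ∀ a, z (S a) = w a

lemma contains_zero {n : ℕ} (w : Fin 0 → W) (z : Fin n → W) : Contains w z :=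
  ⟨Fin.elim0, fun a => a.elim0, fun a => a.elim0⟩

lemma contains_cons {n m : ℕ} {w : Fin m → W} {c : W} {z : Fin n → W} (h : Contains w z) :
    Contains w (Fin.cons c z : Fin (n + 1) → W) := by
  obtain ⟨S, hS, h⟩ := h
  refine ⟨Fin.succ ∘ S, fun a b hab => Fin.succ_lt_succ_iff.2 (hS hab), fun a => ?_⟩
  show (Fin.cons c z : Fin (n + 1) → W) (S a).succ = w a
  rw [Fin.cons_succ, h]

lemma contains_cons_tail {n m : ℕ} {w : Fin (m + 1) → W} {z : Fin n → W}
    (h : Contains (Fin.tail w) z) : Contains w (Fin.cons (w 0) z : Fin (n + 1) → W) := by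
  obtain ⟨S, hS, h⟩ := h
  refine ⟨Fin.cons 0 (Fin.succ ∘ S), ?_, ?_⟩
  · intro a b hab
    refine Fin.cases ?_ (fun b => ?_) b hab
    · intro h0
      exact absurd h0 (Fin.not_lt_zero a)
    · intro hab
      rw [Fin.cons_succ]
      refine Fin.cases ?_ (fun a => ?_) a hab
      · intro _
        rw [Fin.cons_zero]
        exact Fin.succ_pos _
      · intro hab
        rw [Fin.cons_succ]
        exact Fin.succ_lt_succ_iff.2 (hS (Fin.succ_lt_succ_iff.1 hab))
  · intro a
    refine Fin.cases ?_ (fun a => ?_) a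
    · rw [Fin.cons_zero, Fin.cons_zero]
    · rw [Fin.cons_succ]
      show (Fin.cons (w 0) z : Fin (n + 1) → W) (S a).succ = w a.succ
      rw [Fin.cons_succ, h]
      rfl

/-- The words which avoid `w`. -/
abbrev Avd {m : ℕ} (n : ℕ) (w : Fin m → W) : Type := {z : Fin n → W // ¬ Contains w z}

lemma card_avd_succ {n m : ℕ} (w : Fin (m + 1) → W) :
    Nat.card (Avd (n + 1) w) ≤ (Fintype.card W - 1) * Nat.card (Avd n w) +
      Nat.card (Avd n (Fin.tail w)) := by
  classical
  have h1 : Nat.card (({c : W // c ≠ w 0} × Avd n w) ⊕ Avd n (Fin.tail w)) =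
      (Fintype.card W - 1) * Nat.card (Avd n w) + Nat.card (Avd n (Fin.tail w)) := by
    rw [Nat.card_sum, Nat.card_prod]
    congr 2
    rw [Nat.card_eq_fintype_card, Fintype.card_subtype_compl, Fintype.card_subtype_eq]
  rw [← h1]
  let Φ : Avd (n + 1) w → ({c : W // c ≠ w 0} × Avd n w) ⊕ Avd n (Fin.tail w) := fun z =>
    if h : z.1 0 = w 0 then
      Sum.inr ⟨Fin.tail z.1, fun hc => z.2 (by
        have := contains_cons_tail hc
        rwa [← h, Fin.cons_self_tail] at this)⟩
    else Sum.inl (⟨z.1 0, h⟩, ⟨Fin.tail z.1, fun hc => z.2 (by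
        have := contains_cons (c := z.1 0) hc
        rwa [Fin.cons_self_tail] at this)⟩)
  apply Nat.card_le_card_of_injective Φ
  intro z z' h
  apply Subtype.ext
  rw [← Fin.cons_self_tail z.1, ← Fin.cons_self_tail z'.1]
  by_cases h1 : z.1 0 = w 0
  · by_cases h2 : z'.1 0 = w 0
    · simp only [Φ, dif_pos h1, dif_pos h2, Sum.inr.injEq, Subtype.mk.injEq] at h
      rw [h1, h2, h]
    · simp only [Φ, dif_pos h1, dif_neg h2] at h
      exact absurd h (by simp)
  · by_cases h2 : z'.1 0 = w 0
    · simp only [Φ, dif_neg h1, dif_pos h2] at h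
      exact absurd h (by simp)
    · simp only [Φ, dif_neg h1, dif_neg h2, Sum.inl.injEq, Prod.mk.injEq, Subtype.mk.injEq] at h
      rw [h.1, h.2]

lemma card_avd_le (hW : 1 ≤ Fintype.card W) (n : ℕ) : ∀ {m : ℕ} (w : Fin m → W),
    (Nat.card (Avd n w) : ℝ) ≤ 2 ^ m * ((Fintype.card W : ℝ) - 1 / 2) ^ n := by
  have hW' : (1 : ℝ) ≤ Fintype.card W := by exact_mod_cast hW
  induction n with
  | zero =>
    intro m w
    have h1 : Nat.card (Avd 0 w) ≤ Nat.card (Fin 0 → W) :=
      Nat.card_le_card_of_injective _ Subtype.val_injective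
    have h2 : Nat.card (Fin 0 → W) = 1 := by simp
    rw [h2] at h1
    have h3 : (Nat.card (Avd 0 w) : ℝ) ≤ 1 := by exact_mod_cast h1
    rw [pow_zero, mul_one]
    exact h3.trans (one_le_pow₀ (by norm_num))
  | succ n ih =>
    intro m w
    cases m with
    | zero =>
      have h1 : IsEmpty (Avd (n + 1) w) := ⟨fun z => z.2 (contains_zero w z.1)⟩
      rw [Nat.card_of_isEmpty, Nat.cast_zero]
      have : (0 : ℝ) ≤ (Fintype.card W : ℝ) - 1 / 2 := by linarith
      positivity
    | succ m =>
      have h1 := card_avd_succ (n := n) w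
      have h2 : (Nat.card (Avd (n + 1) w) : ℝ) ≤
          ((Fintype.card W : ℝ) - 1) * Nat.card (Avd n w) + Nat.card (Avd n (Fin.tail w)) := by
        have h3 : ((Fintype.card W - 1 : ℕ) : ℝ) = (Fintype.card W : ℝ) - 1 := by
          rw [Nat.cast_sub hW, Nat.cast_one]
        rw [← h3]
        exact_mod_cast h1
      refine h2.trans ?_
      have h4 := mul_le_mul_of_nonneg_left (ih w) (sub_nonneg.2 hW')
      have h5 := ih (Fin.tail w)
      refine (add_le_add h4 h5).trans (le_of_eq ?_)
      rw [pow_succ, pow_succ]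
      ring

end avoid

variable {κ : Type} [Fintype κ] [DecidableEq κ]

/-- The product of `u` and `f` with the variables placed according to `e`. -/
def place {m r n : ℕ} (e : Fin m ⊕ Fin r ≃ Fin n) (u : (Fin m → κ) → (Fin m → κ) → ℝ)
    (f : (Fin r → κ) → (Fin r → κ) → ℝ) : (Fin n → κ) → (Fin n → κ) → ℝ :=
  fun i j => tens u f (i ∘ e) (j ∘ e)

/-- The ideal generated by `u`. -/
def Idl {m : ℕ} (u : (Fin m → κ) → (Fin m → κ) → ℝ) (r n : ℕ) :
    Submodule ℝ ((Fin n → κ) → (Fin n → κ) → ℝ) :=
  Submodule.span ℝ {g | ∃ (e : Fin m ⊕ Fin r ≃ Fin n) (f : (Fin r → κ) → (Fin r → κ) → ℝ),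
    f ∈ Tsp κ (Fin r) (Fin r) ∧ g = place e u f}

/-- The scalar product. -/
def sp {n : ℕ} (g h : (Fin n → κ) → (Fin n → κ) → ℝ) : ℝ := ∑ i, ∑ j, g i j * h i j

/-- The contraction of `g` with `u`. -/
def ctr {m r n : ℕ} (e : Fin m ⊕ Fin r ≃ Fin n) (u : (Fin m → κ) → (Fin m → κ) → ℝ)
    (g : (Fin n → κ) → (Fin n → κ) → ℝ) : (Fin r → κ) → (Fin r → κ) → ℝ :=
  fun i j => ∑ x, ∑ y, u x y * g (Sum.elim x i ∘ e.symm) (Sum.elim y j ∘ e.symm)

lemma ctr_mem {m r n : ℕ} (e : Fin m ⊕ Fin r ≃ Fin n) {u : (Fin m → κ) → (Fin m → κ) → ℝ}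
    (hu : u ∈ Tsp κ (Fin m) (Fin m)) {g : (Fin n → κ) → (Fin n → κ) → ℝ}
    (hg : g ∈ Tsp κ (Fin n) (Fin n)) : ctr e u g ∈ Tsp κ (Fin r) (Fin r) := by
  let a : Fin n ≃ Fin r ⊕ Fin m := e.symm.trans (Equiv.sumComm _ _)
  have h1 := reindex_mem a a hg
  let c : Fin m ≃ Fin 0 ⊕ Fin m := (Equiv.emptySum (Fin 0) (Fin m)).symm
  have h2 := reindex_mem c c (flip_mem hu)
  have h3 := comp_mem (I := Fin r) (J := Fin r) (I' := Fin 0) (J' := Fin 0) (K := Fin m)
    (L := Fin m) h1 h2
  have h4 := reindex_mem (Equiv.sumEmpty (Fin r) (Fin 0)) (Equiv.sumEmpty (Fin r) (Fin 0)) h3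
  convert h4 using 1
  funext i j
  unfold ctr
  apply Finset.sum_congr rfl
  intro x _
  apply Finset.sum_congr rfl
  intro y _
  rw [mul_comm]
  have e1 : ∀ (i : Fin r → κ) (x : Fin m → κ), Sum.elim x i ∘ e.symm =
      Sum.elim ((i ∘ (Equiv.sumEmpty (Fin r) (Fin 0))) ∘ Sum.inl) x ∘ a := by
    intro i x
    funext z
    show Sum.elim x i (e.symm z) =
      Sum.elim ((i ∘ (Equiv.sumEmpty (Fin r) (Fin 0))) ∘ Sum.inl) x (Equiv.sumComm _ _ (e.symm z))
    rcases e.symm z with q | q <;> rfl
  have e2 : ∀ (v : Fin 0 → κ) (x : Fin m → κ), x = Sum.elim v x ∘ c := by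
    intro v x
    rfl
  rw [e1 i x, e1 j y]
  rfl

lemma sp_place {m r n : ℕ} (e : Fin m ⊕ Fin r ≃ Fin n) (u : (Fin m → κ) → (Fin m → κ) → ℝ)
    (g : (Fin n → κ) → (Fin n → κ) → ℝ) (f : (Fin r → κ) → (Fin r → κ) → ℝ) :
    sp g (place e u f) = ∑ i, ∑ j, ctr e u g i j * f i j := by
  let E : (Fin m → κ) × (Fin r → κ) ≃ (Fin n → κ) :=
    (Equiv.sumArrowEquivProdArrow (Fin m) (Fin r) κ).symm.trans (Equiv.arrowCongr e (Equiv.refl κ))
  have hE : ∀ x i, E (x, i) = Sum.elim x i ∘ e.symm := fun x i => rfl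
  have hl : ∀ (x : Fin m → κ) (i : Fin r → κ), ((Sum.elim x i ∘ e.symm) ∘ e) ∘ Sum.inl = x := by
    intro x i
    funext a
    simp
  have hr : ∀ (x : Fin m → κ) (i : Fin r → κ), ((Sum.elim x i ∘ e.symm) ∘ e) ∘ Sum.inr = i := by
    intro x i
    funext a
    simp
  have h1 : sp g (place e u f) = ∑ p : (Fin m → κ) × (Fin r → κ),
      ∑ p' : (Fin m → κ) × (Fin r → κ),
        g (Sum.elim p.1 p.2 ∘ e.symm) (Sum.elim p'.1 p'.2 ∘ e.symm) * (u p.1 p'.1 * f p.2 p'.2) := by
    unfold sp
    rw [← E.sum_comp]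
    apply Finset.sum_congr rfl
    intro p _
    rw [← E.sum_comp]
    apply Finset.sum_congr rfl
    intro p' _
    obtain ⟨x, i⟩ := p
    obtain ⟨y, j⟩ := p'
    rw [hE, hE, place, tens, hl, hl, hr, hr]
  rw [h1]
  simp only [Fintype.sum_prod_type]
  unfold ctr
  simp only [Finset.sum_mul]
  rw [Finset.sum_comm]
  apply Finset.sum_congr rfl
  intro i _
  calc ∑ x, ∑ y, ∑ j, g (Sum.elim x i ∘ e.symm) (Sum.elim y j ∘ e.symm) * (u x y * f i j)
      = ∑ x, ∑ j, ∑ y, g (Sum.elim x i ∘ e.symm) (Sum.elim y j ∘ e.symm) * (u x y * f i j) := by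
        apply Finset.sum_congr rfl
        intro x _
        rw [Finset.sum_comm]
    _ = ∑ j, ∑ x, ∑ y, g (Sum.elim x i ∘ e.symm) (Sum.elim y j ∘ e.symm) * (u x y * f i j) := by
        rw [Finset.sum_comm]
    _ = _ := by
        apply Finset.sum_congr rfl
        intro j _
        apply Finset.sum_congr rfl
        intro x _
        apply Finset.sum_congr rfl
        intro y _
        ring

/-- An element of the span which is orthogonal to the ideal has vanishing contractions with `u`. -/
lemma ctr_eq_zero {m r n : ℕ} {u : (Fin m → κ) → (Fin m → κ) → ℝ}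
    (hu : u ∈ Tsp κ (Fin m) (Fin m)) {g : (Fin n → κ) → (Fin n → κ) → ℝ}
    (hg : g ∈ Tsp κ (Fin n) (Fin n)) (h : ∀ f ∈ Idl u r n, sp g f = 0)
    (e : Fin m ⊕ Fin r ≃ Fin n) : ctr e u g = 0 := by
  have h1 := h (place e u (ctr e u g)) (Submodule.subset_span ⟨e, _, ctr_mem e hu hg, rfl⟩)
  rw [sp_place] at h1
  funext i j
  have h2 : ∀ i ∈ Finset.univ, 0 ≤ ∑ j, ctr e u g i j * ctr e u g i j :=
    fun i _ => Finset.sum_nonneg fun j _ => mul_self_nonneg _
  have h3 := (Finset.sum_eq_zero_iff_of_nonneg h2).1 h1 i (Finset.mem_univ i)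
  have h4 := (Finset.sum_eq_zero_iff_of_nonneg fun j _ => mul_self_nonneg _).1 h3 j
    (Finset.mem_univ j)
  exact mul_self_eq_zero.1 h4

lemma exists_equiv_of_strictMono {m r n : ℕ} (hn : m + r = n) (S : Fin m → Fin n)
    (hS : Function.Injective S) : ∃ e : Fin m ⊕ Fin r ≃ Fin n, ∀ a, e (Sum.inl a) = S a := by
  classical
  have hc : Fintype.card ((Set.range S)ᶜ : Set (Fin n)) = r := by
    rw [Fintype.card_compl_set, Fintype.card_fin, Set.card_range_of_injective hS,
      Fintype.card_fin]
    omega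
  refine ⟨(Equiv.sumCongr (Equiv.ofInjective S hS) (Fintype.equivFinOfCardEq hc).symm).trans
    (Equiv.Set.sumCompl (Set.range S)), ?_⟩
  intro a
  rfl

/-- The comparison of words. -/
noncomputable def ordw {n : ℕ} (z : Fin n → κ × κ) :
    Lex (Fin n → Fin (Fintype.card (κ × κ))) :=
  toLex fun a => Fintype.equivFin (κ × κ) (z a)

lemma ordw_injective {n : ℕ} : Function.Injective (ordw : (Fin n → κ × κ) → _) := by
  intro z z' h
  funext a
  have h1 := congrFun (toLex.injective h) a
  exact (Fintype.equivFin (κ × κ)).injective h1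

lemma ordw_lt {n : ℕ} {z z' : Fin n → κ × κ} : ordw z < ordw z' ↔
    ∃ a, (∀ b, b < a → z b = z' b) ∧
      Fintype.equivFin (κ × κ) (z a) < Fintype.equivFin (κ × κ) (z' a) := by
  constructor
  · rintro ⟨a, h1, h2⟩
    exact ⟨a, fun b hb => (Fintype.equivFin (κ × κ)).injective (h1 b hb), h2⟩
  · rintro ⟨a, h1, h2⟩
    exact ⟨a, fun b hb => congrArg _ (h1 b hb), h2⟩

/-- **The leading word argument.** -/
theorem lead {m r n : ℕ} (hn : m + r = n) {u : (Fin m → κ) → (Fin m → κ) → ℝ}
    (hu : u ∈ Tsp κ (Fin m) (Fin m)) (w : Fin m → κ × κ)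
    (hw : u (fun a => (w a).1) (fun a => (w a).2) ≠ 0)
    (hmax : ∀ w' : Fin m → κ × κ, ordw w < ordw w' →
      u (fun a => (w' a).1) (fun a => (w' a).2) = 0)
    {g : (Fin n → κ) → (Fin n → κ) → ℝ}
    (hg : g ∈ Tsp κ (Fin n) (Fin n)) (h : ∀ f ∈ Idl u r n, sp g f = 0)
    (h0 : ∀ z : Fin n → κ × κ, ¬ Contains w z → g (fun a => (z a).1) (fun a => (z a).2) = 0) :
    g = 0 := by
  have key : ∀ z : Fin n → κ × κ, g (fun a => (z a).1) (fun a => (z a).2) = 0 := by
    have hwf : WellFounded fun z z' : Fin n → κ × κ => ordw z < ordw z' :=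
      InvImage.wf ordw wellFounded_lt
    intro z
    induction z using hwf.induction with
    | _ z ih =>
      by_cases hc : Contains w z
      · obtain ⟨S, hS, hSw⟩ := hc
        obtain ⟨e, he⟩ := exists_equiv_of_strictMono hn S hS.injective
        have h1 := ctr_eq_zero hu hg h e
        have h2 := congrFun (congrFun h1 (fun a => (z (e (Sum.inr a))).1))
          (fun a => (z (e (Sum.inr a))).2)
        unfold ctr at h2
        -- the word obtained by replacing the letters in `S`
        let rep : (Fin m → κ × κ) → (Fin n → κ × κ) := fun w' b =>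
          Sum.elim w' (fun a => z (e (Sum.inr a))) (e.symm b)
        have hrep : ∀ w' : Fin m → κ × κ,
            (Sum.elim (fun a => (w' a).1) (fun a => (z (e (Sum.inr a))).1)) ∘ e.symm =
              fun b => (rep w' b).1 := by
          intro w'
          funext b
          show Sum.elim _ _ (e.symm b) = (Sum.elim _ _ (e.symm b) : κ × κ).1
          rcases e.symm b with q | q <;> rfl
        have hrep2 : ∀ w' : Fin m → κ × κ,
            (Sum.elim (fun a => (w' a).2) (fun a => (z (e (Sum.inr a))).2)) ∘ e.symm =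
              fun b => (rep w' b).2 := by
          intro w'
          funext b
          show Sum.elim _ _ (e.symm b) = (Sum.elim _ _ (e.symm b) : κ × κ).2
          rcases e.symm b with q | q <;> rfl
        have hrepw : rep w = z := by
          funext b
          show Sum.elim w (fun a => z (e (Sum.inr a))) (e.symm b) = z b
          obtain ⟨c, rfl⟩ := e.surjective b
          rw [Equiv.symm_apply_apply]
          rcases c with q | q
          · show w q = z (e (Sum.inl q))
            rw [he, hSw]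
          · rfl
        have hreplt : ∀ w' : Fin m → κ × κ, ordw w' < ordw w → ordw (rep w') < ordw z := by
          intro w' hlt
          rw [ordw_lt] at hlt ⊢
          obtain ⟨a, h3, h4⟩ := hlt
          have hra : ∀ a, rep w' (S a) = w' a := by
            intro a
            show Sum.elim _ _ (e.symm (S a)) = _
            rw [← he, Equiv.symm_apply_apply]
            rfl
          refine ⟨S a, ?_, ?_⟩
          · intro b hb
            obtain ⟨c, rfl⟩ := e.surjective b
            rcases c with q | q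
            · rw [he] at hb ⊢
              rw [hra, hSw]
              exact h3 q (hS.lt_iff_lt.1 hb)
            · show Sum.elim _ _ (e.symm (e (Sum.inr q))) = _
              rw [Equiv.symm_apply_apply]
              rfl
          · rw [hra, hSw]
            exact h4
        have h3 : ∑ w' : Fin m → κ × κ, u (fun a => (w' a).1) (fun a => (w' a).2) *
            g (fun b => (rep w' b).1) (fun b => (rep w' b).2) = 0 := by
          have e1 : ∀ F : (Fin m → κ) → (Fin m → κ) → ℝ, ∑ x, ∑ y, F x y =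
              ∑ w' : Fin m → κ × κ, F (fun a => (w' a).1) (fun a => (w' a).2) := by
            intro F
            rw [← Fintype.sum_prod_type (f := fun p : (Fin m → κ) × (Fin m → κ) => F p.1 p.2),
              ← (Equiv.arrowProdEquivProdArrow (Fin m) (fun _ => κ) (fun _ => κ)).sum_comp]
            rfl
          rw [e1] at h2
          refine Eq.trans ?_ h2
          apply Finset.sum_congr rfl
          intro w' _
          rw [hrep, hrep2]
        rw [Finset.sum_eq_single w] at h3
        · rw [hrepw] at h3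
          exact (mul_eq_zero.1 h3).resolve_left hw
        · intro w' _ hne
          rcases lt_or_gt_of_ne (fun h => hne (ordw_injective h) : ordw w' ≠ ordw w) with h4 | h4
          · rw [ih (rep w') (hreplt w' h4), mul_zero]
          · rw [hmax w' h4, zero_mul]
        · intro h4
          exact absurd (Finset.mem_univ w) h4
      · exact h0 z hc
  funext i j
  exact key fun a => (i a, j a)

/-- **The codimension of the ideal of an element.** -/
theorem idl_bound [Nonempty κ] {m r n : ℕ} (hn : m + r = n) {u : (Fin m → κ) → (Fin m → κ) → ℝ}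
    (hu : u ∈ Tsp κ (Fin m) (Fin m)) (hu0 : u ≠ 0) :
    (tdim κ n : ℝ) ≤ finrank ℝ (Idl u r n) +
      2 ^ m * ((Fintype.card (κ × κ) : ℝ) - 1 / 2) ^ n := by
  classical
  -- the leading word
  have hex : ∃ w : Fin m → κ × κ, u (fun a => (w a).1) (fun a => (w a).2) ≠ 0 := by
    by_contra hcon
    push Not at hcon
    apply hu0
    funext i j
    exact hcon fun a => (i a, j a)
  let s : Finset (Fin m → κ × κ) :=
    Finset.univ.filter fun w => u (fun a => (w a).1) (fun a => (w a).2) ≠ 0
  have hs : s.Nonempty := by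
    obtain ⟨w, hw⟩ := hex
    exact ⟨w, Finset.mem_filter.2 ⟨Finset.mem_univ _, hw⟩⟩
  obtain ⟨w, hw, hmax⟩ := s.exists_max_image ordw hs
  have hw1 := (Finset.mem_filter.1 hw).2
  have hmax' : ∀ w' : Fin m → κ × κ, ordw w < ordw w' →
      u (fun a => (w' a).1) (fun a => (w' a).2) = 0 := by
    intro w' h1
    by_contra h2
    exact absurd (hmax w' (Finset.mem_filter.2 ⟨Finset.mem_univ _, h2⟩)) (not_le.2 h1)
  -- the pairing with the ideal
  let B : Tsp κ (Fin n) (Fin n) →ₗ[ℝ] Dual ℝ (Idl u r n) :=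
    { toFun := fun g =>
        { toFun := fun f => sp (g : (Fin n → κ) → (Fin n → κ) → ℝ) f
          map_add' := fun f f' => by
            simp only [sp, Submodule.coe_add, Pi.add_apply, mul_add, Finset.sum_add_distrib]
          map_smul' := fun c f => by
            simp only [sp, Submodule.coe_smul, Pi.smul_apply, smul_eq_mul, RingHom.id_apply,
              Finset.mul_sum]
            apply Finset.sum_congr rfl
            intro i _
            apply Finset.sum_congr rfl
            intro j _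
            ring }
      map_add' := fun g g' => by
        ext f
        simp only [sp, Submodule.coe_add, Pi.add_apply, add_mul, Finset.sum_add_distrib,
          LinearMap.coe_mk, AddHom.coe_mk, LinearMap.add_apply]
      map_smul' := fun c g => by
        ext f
        simp only [sp, Submodule.coe_smul, Pi.smul_apply, smul_eq_mul, RingHom.id_apply,
          LinearMap.coe_mk, AddHom.coe_mk, LinearMap.smul_apply, Finset.mul_sum]
        apply Finset.sum_congr rfl
        intro i _
        apply Finset.sum_congr rfl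
        intro j _
        ring }
  have h1 := LinearMap.finrank_range_add_finrank_ker B
  have h2 : finrank ℝ (LinearMap.range B) ≤ finrank ℝ (Idl u r n) := by
    refine (Submodule.finrank_le _).trans (le_of_eq ?_)
    exact Subspace.dual_finrank_eq
  let R : LinearMap.ker B →ₗ[ℝ] (Avd n w → ℝ) :=
    { toFun := fun g z => ((g : Tsp κ (Fin n) (Fin n)) : (Fin n → κ) → (Fin n → κ) → ℝ)
        (fun a => (z.1 a).1) (fun a => (z.1 a).2)
      map_add' := fun _ _ => rfl
      map_smul' := fun _ _ => rfl }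
  have h3 : Function.Injective R := by
    intro g g' hgg
    apply Subtype.ext
    apply Subtype.ext
    have hsub : ((g : Tsp κ (Fin n) (Fin n)) : (Fin n → κ) → (Fin n → κ) → ℝ) -
        ((g' : Tsp κ (Fin n) (Fin n)) : (Fin n → κ) → (Fin n → κ) → ℝ) = 0 := by
      refine lead hn hu w hw1 hmax' (Submodule.sub_mem _ g.1.2 g'.1.2) ?_ ?_
      · intro f hf
        have h4 : B g = 0 := g.2
        have h4' : B g' = 0 := g'.2
        have h5 : sp ((g : Tsp κ (Fin n) (Fin n)) : (Fin n → κ) → (Fin n → κ) → ℝ) f = 0 :=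
          LinearMap.congr_fun h4 ⟨f, hf⟩
        have h5' : sp ((g' : Tsp κ (Fin n) (Fin n)) : (Fin n → κ) → (Fin n → κ) → ℝ) f = 0 :=
          LinearMap.congr_fun h4' ⟨f, hf⟩
        unfold sp at h5 h5' ⊢
        simp only [Pi.sub_apply, sub_mul, Finset.sum_sub_distrib]
        rw [h5, h5', sub_zero]
      · intro z hz
        have h6 := congrFun hgg ⟨z, hz⟩
        rw [Pi.sub_apply, Pi.sub_apply, sub_eq_zero]
        exact h6
    exact sub_eq_zero.1 hsub
  have h4 := LinearMap.finrank_le_finrank_of_injective h3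
  have h5 : finrank ℝ (Avd n w → ℝ) = Nat.card (Avd n w) := by
    rw [Module.finrank_pi, Nat.card_eq_fintype_card]
  rw [h5] at h4
  have h6 : (Nat.card (Avd n w) : ℝ) ≤ 2 ^ m * ((Fintype.card (κ × κ) : ℝ) - 1 / 2) ^ n :=
    card_avd_le Fintype.card_pos n w
  have h7 : (tdim κ n : ℝ) ≤ finrank ℝ (Idl u r n) + Nat.card (Avd n w) := by
    have : tdim κ n ≤ finrank ℝ (Idl u r n) + Nat.card (Avd n w) := by
      unfold tdim
      omega
    exact_mod_cast this
  linarith

end Pool.Agent.X302.CZ
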