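import Pool.Agent.X302.CZ.Codim
import Pool.Agent.X302.CZ.Lead
import Pool.Agent.X302.CZ.Growth

/-!
# The ratio of central codimensions to codimensions converges
-/

set_option autoImplicit false
set_option linter.unusedSectionVars false

open Module Filter Topology

namespace Pool.Agent.X302.CZ

section dims
variable {κ : Type} [Fintype κ] [DecidableEq κ]

lemma finrank_TZ_real (ι : Type) : finrank ℝ (TZ (κ := κ) ℝ ι) = finrank ℝ (Tsp κ ι ι) := by
  let L := LinearEquiv.curry ℝ ℝ (ι → κ) (ι → κ)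
  have h1 : (TZ (κ := κ) ℝ ι).map (L : ((ι → κ) × (ι → κ) → ℝ) →ₗ[ℝ] _) = Tsp κ ι ι := by
    rw [TZ, Submodule.map_span, Tsp, ← Set.range_comp]
    congr 1
    congr 1
    funext ρ
    funext i j
    exact (del_eq_delZ ρ i j).symm
  rw [← h1]
  exact (LinearEquiv.finrank_map_eq L _).symm

lemma finrank_TZ (F : Type) [Field F] [CharZero F] {ι : Type} [Fintype ι] {m : ℕ}
    (h : Fintype.card ι = m) : finrank F (TZ (κ := κ) F ι) = tdim κ m := by
  classical
  rw [← finrank_Tsp_eq (κ := κ) h h, ← finrank_TZ_real]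
  exact transfer' (fun (ρ : Equiv.Perm ι) (ij : (ι → κ) × (ι → κ)) => delZ ρ ij.1 ij.2) F ℝ

lemma TrF_Eu_mem {ι : Type} [Nonempty ι] {G : (ι → Matrix κ κ ℝ) → ℝ} (hG : G ∈ TrF κ ℝ ι) :
    (fun i j => G (Eu ℝ i j)) ∈ Tsp κ ι ι := by
  let Φ : ((ι → Matrix κ κ ℝ) → ℝ) →ₗ[ℝ] ((ι → κ) → (ι → κ) → ℝ) :=
    { toFun := fun G i j => G (Eu ℝ i j)
      map_add' := fun G G' => rfl
      map_smul' := fun c G => rfl }
  refine span_map_mem Φ ?_ hG
  rintro _ ⟨l, h1, h2, rfl⟩
  obtain ⟨ρ, hρ⟩ := word_del (κ := κ) h1 h2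
  have : Φ (fun x => ((l.map x).prod).trace) = del ρ := by
    funext i j
    rw [del_eq_delZ]
    exact hρ ℝ i j
  rw [this]
  exact del_mem _

variable (κ) in
/-- The element `u`. -/
noncomputable def uu (d : ℕ) : (Fin (d + d) → κ) → (Fin (d + d) → κ) → ℝ :=
  fun i j => ((g0 (Eu ℤ (i ∘ finSumFinEquiv) (j ∘ finSumFinEquiv)) : ℤ) : ℝ)

lemma uu_mem (n : ℕ) : uu κ (n + 1) ∈ Tsp κ (Fin (n + 1 + (n + 1))) (Fin (n + 1 + (n + 1))) := by
  have h1 := TrF_Eu_mem (g0_mem (κ := κ) (R := ℝ) (n + 1))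
  have h2 := reindex_mem finSumFinEquiv finSumFinEquiv h1
  convert h2 using 1
  funext i j
  exact (g0_Eu ℝ _ _).symm

lemma uu_ne {n : ℕ} (ν : Fin (n + 1) ≃ κ × κ) : uu κ (n + 1) ≠ 0 := by
  obtain ⟨i, j, hij⟩ := g0_ne_zero ν
  intro h
  have h1 := congrFun (congrFun h (i ∘ finSumFinEquiv.symm)) (j ∘ finSumFinEquiv.symm)
  rw [uu] at h1
  have h2 : ∀ i : Fin (n + 1) ⊕ Fin (n + 1) → κ,
      (i ∘ finSumFinEquiv.symm) ∘ finSumFinEquiv = i := by
    intro i
    funext a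
    simp
  rw [h2, h2] at h1
  have h3 : ((g0 (Eu ℤ i j) : ℤ) : ℝ) = 0 := h1
  exact hij (by exact_mod_cast h3)

lemma finrank_Idl_le (d r n : ℕ) :
    finrank ℝ (Idl (uu κ d) r n) ≤ finrank ℝ (IZ ℝ κ d r (Fin n)) := by
  let L := LinearEquiv.curry ℝ ℝ (Fin n → κ) (Fin n → κ)
  have h1 : Idl (uu κ d) r n ≤
      (IZ ℝ κ d r (Fin n)).map (L : ((Fin n → κ) × (Fin n → κ) → ℝ) →ₗ[ℝ] _) := by
    rw [Idl, Submodule.span_le]
    rintro _ ⟨e, f, hf, rfl⟩
    let Φ : ((Fin r → κ) → (Fin r → κ) → ℝ) →ₗ[ℝ] ((Fin n → κ) → (Fin n → κ) → ℝ) :=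
      { toFun := fun f => place e (uu κ d) f
        map_add' := fun f g => by
          funext i j
          simp [place, tens, mul_add]
        map_smul' := fun c f => by
          funext i j
          simp only [place, tens, Pi.smul_apply, smul_eq_mul, RingHom.id_apply]
          ring }
    show Φ f ∈ _
    refine span_map_mem Φ ?_ hf
    rintro _ ⟨ρ, rfl⟩
    refine ⟨fun ij => (vI κ d r (Fin n)
      ((Equiv.sumCongr finSumFinEquiv (Equiv.refl _)).trans e, ρ) ij : ℝ),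
      Submodule.subset_span ⟨_, rfl⟩, ?_⟩
    funext i j
    show ((vI κ d r (Fin n) _ (i, j) : ℤ) : ℝ) = uu κ d _ _ * del ρ _ _
    rw [vI, del_eq_delZ, Int.cast_mul]
    rfl
  have : FiniteDimensional ℝ (IZ ℝ κ d r (Fin n)) :=
    FiniteDimensional.span_of_finite ℝ (Set.finite_range _)
  refine (Submodule.finrank_mono h1).trans ?_
  exact Submodule.finrank_map_le _ _

lemma finrank_IZ (F : Type) [Field F] [CharZero F] (d r n : ℕ) :
    finrank F (IZ F κ d r (Fin n)) = finrank ℝ (IZ ℝ κ d r (Fin n)) :=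
  transfer' (fun eρ ij => vI κ d r (Fin n) eρ ij) F ℝ

end dims

section central
variable (κ F : Type) [Fintype κ] [DecidableEq κ] [Field F]

/-- The quotient map. -/
noncomputable def QQ (n : ℕ) :=
  LinearMap.compLeft (Submodule.mkQ (Subalgebra.toSubmodule
    (Subalgebra.center F (Matrix κ κ F)))) (Fin n → Matrix κ κ F)

lemma finrank_central (n : ℕ) :
    finrank F (Submodule.span F (Set.range (fun σ : Equiv.Perm (Fin n) =>
      fun x : Fin n → Matrix κ κ F =>
        Submodule.mkQ (Subalgebra.toSubmodule (Subalgebra.center F (Matrix κ κ F)))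
          (List.ofFn (fun i => x (σ i))).prod))) + finrank F (Zsp κ F n) =
      finrank F (Wsp κ F n) := by
  have h1 : Submodule.span F (Set.range (fun σ : Equiv.Perm (Fin n) =>
      fun x : Fin n → Matrix κ κ F =>
        Submodule.mkQ (Subalgebra.toSubmodule (Subalgebra.center F (Matrix κ κ F)))
          (List.ofFn (fun i => x (σ i))).prod)) = (Wsp κ F n).map (QQ κ F n) := by
    rw [Wsp, Submodule.map_span, ← Set.range_comp]
    rfl
  rw [h1]
  have h2 := LinearMap.finrank_range_add_finrank_ker ((QQ κ F n).domRestrict (Wsp κ F n))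
  rw [LinearMap.range_domRestrict] at h2
  have h3 : ((LinearMap.ker ((QQ κ F n).domRestrict (Wsp κ F n))).map (Wsp κ F n).subtype) =
      Zsp κ F n := by
    ext f
    constructor
    · rintro ⟨g, hg, rfl⟩
      refine ⟨g.2, fun x => ?_⟩
      have h4 : QQ κ F n g.1 = 0 := hg
      have h5 := congrFun h4 x
      exact (Submodule.Quotient.mk_eq_zero _).1 h5
    · rintro ⟨hf, hf2⟩
      refine ⟨⟨f, hf⟩, ?_, rfl⟩
      show QQ κ F n f = 0
      funext x
      exact (Submodule.Quotient.mk_eq_zero _).2 (hf2 x)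
  rw [← h3, Submodule.finrank_map_subtype_eq, h2]

end central

/-- The limit. -/
lemma limit_lemma {t c δ err : ℕ → ℝ} {m : ℕ} (ht : ∀ n, 0 < t n)
    (hc2 : ∀ n, t (n + 1) ^ 2 ≤ t n * t (n + 2))
    (hc : ∀ n, m ≤ n → t (n + 1) - err (n + 1) ≤ c n ∧ c n ≤ t (n + 1))
    (hδ : ∀ n, m ≤ n → t n - err n ≤ δ n ∧ δ n ≤ t n)
    (herr : Tendsto (fun n => err n / t n) atTop (𝓝 0)) :
    ∃ ℓ : ℝ, Tendsto (fun n => δ n / c n) atTop (𝓝 ℓ) ∧ ∀ᶠ n in atTop, 0 < c n := by
  have h1 : Antitone fun n => t n / t (n + 1) := by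
    refine antitone_nat_of_succ_le fun n => ?_
    rw [div_le_div_iff₀ (ht _) (ht _), ← sq]
    exact hc2 n
  have h2 : BddBelow (Set.range fun n => t n / t (n + 1)) := by
    refine ⟨0, ?_⟩
    rintro _ ⟨n, rfl⟩
    exact div_nonneg (ht _).le (ht _).le
  have h3 := tendsto_atTop_ciInf h1 h2
  have h4 : Tendsto (fun n => δ n / t n) atTop (𝓝 1) := by
    have h5 : Tendsto (fun n => 1 - err n / t n) atTop (𝓝 (1 - 0)) :=
      tendsto_const_nhds.sub herr
    rw [sub_zero] at h5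
    refine tendsto_of_tendsto_of_tendsto_of_le_of_le' h5 tendsto_const_nhds ?_ ?_
    · filter_upwards [eventually_ge_atTop m] with n hn
      rw [le_div_iff₀ (ht n), sub_mul, div_mul_cancel₀ _ (ht n).ne', one_mul]
      exact (hδ n hn).1
    · filter_upwards [eventually_ge_atTop m] with n hn
      rw [div_le_one (ht n)]
      exact (hδ n hn).2
  have h6 : Tendsto (fun n => c n / t (n + 1)) atTop (𝓝 1) := by
    have h5 : Tendsto (fun n => 1 - err (n + 1) / t (n + 1)) atTop (𝓝 (1 - 0)) :=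
      tendsto_const_nhds.sub (herr.comp (tendsto_add_atTop_nat 1))
    rw [sub_zero] at h5
    refine tendsto_of_tendsto_of_tendsto_of_le_of_le' h5 tendsto_const_nhds ?_ ?_
    · filter_upwards [eventually_ge_atTop m] with n hn
      rw [le_div_iff₀ (ht _), sub_mul, div_mul_cancel₀ _ (ht _).ne', one_mul]
      exact (hc n hn).1
    · filter_upwards [eventually_ge_atTop m] with n hn
      rw [div_le_one (ht _)]
      exact (hc n hn).2
  refine ⟨(1 * ⨅ n, t n / t (n + 1)) / 1, ?_, ?_⟩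
  · have h7 := (h4.mul h3).div h6 one_ne_zero
    refine h7.congr fun n => ?_
    simp only [Pi.mul_apply, Pi.div_apply]
    rw [div_mul_div_cancel₀ (ht n).ne', div_div_div_cancel_right₀ (ht _).ne']
  · have h8 := h6.eventually (lt_mem_nhds (show (0 : ℝ) < 1 by norm_num))
    filter_upwards [h8] with n hn
    have := mul_pos hn (ht (n + 1))
    rwa [div_mul_cancel₀ _ (ht _).ne'] at this

lemma err_lemma {t : ℕ → ℝ} {D : ℕ} (hD : 1 ≤ D) (ht : ∀ n, (D : ℝ) ^ n ≤ t n * ((n : ℝ) + 1) ^ D)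
    (C : ℝ) (hC : 0 ≤ C) :
    Tendsto (fun n => (C * ((D : ℝ) - 1 / 2) ^ n) / t n) atTop (𝓝 0) := by
  have hD' : (1 : ℝ) ≤ D := by exact_mod_cast hD
  have htpos : ∀ n, 0 < t n := by
    intro n
    have h1 : (0 : ℝ) < (D : ℝ) ^ n := by positivity
    have h2 := h1.trans_le (ht n)
    have h3 : (0 : ℝ) < ((n : ℝ) + 1) ^ D := by positivity
    exact pos_of_mul_pos_left h2 h3.le
  let q : ℝ := ((D : ℝ) - 1 / 2) / D
  have hq0 : 0 ≤ q := by
    apply div_nonneg <;> linarith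
  have hq1 : q < 1 := by
    show ((D : ℝ) - 1 / 2) / D < 1
    rw [div_lt_one (by linarith)]
    linarith
  have h1 : Tendsto (fun n : ℕ => (n : ℝ) ^ D * q ^ n) atTop (𝓝 0) :=
    tendsto_pow_const_mul_const_pow_of_abs_lt_one D (by rwa [abs_of_nonneg hq0])
  have h2 : Tendsto (fun n : ℕ => (C * 2 ^ D) * ((n : ℝ) ^ D * q ^ n)) atTop (𝓝 0) := by
    have := h1.const_mul (C * 2 ^ D)
    rwa [mul_zero] at this
  refine tendsto_of_tendsto_of_tendsto_of_le_of_le' tendsto_const_nhds h2 ?_ ?_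
  · filter_upwards with n
    apply div_nonneg _ (htpos n).le
    apply mul_nonneg hC
    apply pow_nonneg
    linarith
  · filter_upwards [eventually_ge_atTop 1] with n hn
    have hn' : (1 : ℝ) ≤ n := by exact_mod_cast hn
    rw [div_le_iff₀ (htpos n)]
    have h3 : ((n : ℝ) + 1) ^ D ≤ 2 ^ D * (n : ℝ) ^ D := by
      rw [← mul_pow]
      apply pow_le_pow_left₀ (by linarith)
      linarith
    have h4 : ((D : ℝ) - 1 / 2) ^ n = q ^ n * (D : ℝ) ^ n := by
      rw [← mul_pow]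
      congr 1
      show (D : ℝ) - 1 / 2 = ((D : ℝ) - 1 / 2) / D * D
      field_simp
    rw [h4]
    have h5 : (D : ℝ) ^ n ≤ t n * (2 ^ D * (n : ℝ) ^ D) :=
      (ht n).trans (mul_le_mul_of_nonneg_left h3 (htpos n).le)
    have h6 : 0 ≤ q ^ n := pow_nonneg hq0 n
    calc C * (q ^ n * (D : ℝ) ^ n) ≤ C * (q ^ n * (t n * (2 ^ D * (n : ℝ) ^ D))) := by
          apply mul_le_mul_of_nonneg_left _ hC
          exact mul_le_mul_of_nonneg_left h5 h6
      _ = C * 2 ^ D * ((n : ℝ) ^ D * q ^ n) * t n := by ring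

/-- **The theorem** for matrices with rows and columns indexed by `κ`. -/
theorem ratio_tendsto (F κ : Type) [Field F] [CharZero F] [Fintype κ] [DecidableEq κ]
    [Nonempty κ] : ∃ α : ℝ, 0 ≤ α ∧ α ≤ 1 ∧
      Tendsto (fun n : ℕ => (finrank F (Submodule.span F (Set.range (fun σ : Equiv.Perm (Fin n) =>
        fun x : Fin n → Matrix κ κ F =>
          Submodule.mkQ (Subalgebra.toSubmodule (Subalgebra.center F (Matrix κ κ F)))
            (List.ofFn (fun i => x (σ i))).prod))) : ℝ) / (finrank F (Wsp κ F n) : ℝ))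
        atTop (𝓝 α) := by
  obtain ⟨p, hp⟩ : ∃ p, Fintype.card (κ × κ) = p + 1 :=
    ⟨Fintype.card (κ × κ) - 1, by have := Fintype.card_pos (α := κ × κ); omega⟩
  let ν : Fin (p + 1) ≃ κ × κ := (Fintype.equivFinOfCardEq hp).symm
  let m := p + 1 + (p + 1)
  let t : ℕ → ℝ := fun n => tdim κ n
  let c : ℕ → ℝ := fun n => finrank F (Wsp κ F n)
  let δ : ℕ → ℝ := fun n => finrank F (Zsp κ F n)
  let err : ℕ → ℝ := fun n => 2 ^ m * ((Fintype.card (κ × κ) : ℝ) - 1 / 2) ^ n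
  have hgrow : ∀ n, ((Fintype.card (κ × κ) : ℕ) : ℝ) ^ n ≤
      t n * ((n : ℝ) + 1) ^ Fintype.card (κ × κ) := by
    intro n
    have h1 := growth (κ := κ) n
    have h2 : (Fintype.card κ ^ n) ^ 2 = Fintype.card (κ × κ) ^ n := by
      rw [Fintype.card_prod, ← pow_mul, mul_comm n 2, pow_mul, sq]
    rw [h2] at h1
    show ((Fintype.card (κ × κ) : ℕ) : ℝ) ^ n ≤
      (tdim κ n : ℝ) * ((n : ℝ) + 1) ^ Fintype.card (κ × κ)
    exact_mod_cast h1
  have hlow : ∀ n, m ≤ n → t n - err n ≤ finrank F (IZ F κ (p + 1) (n - m) (Fin n)) := by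
    intro n hn
    have h1 := idl_bound (κ := κ) (m := m) (r := n - m) (n := n) (by omega) (uu_mem p) (uu_ne ν)
    have h2 : (finrank ℝ (Idl (uu κ (p + 1)) (n - m) n) : ℝ) ≤
        finrank ℝ (IZ ℝ κ (p + 1) (n - m) (Fin n)) := by
      exact_mod_cast finrank_Idl_le (p + 1) (n - m) n
    rw [finrank_IZ F (p + 1) (n - m) n]
    show (tdim κ n : ℝ) - 2 ^ m * ((Fintype.card (κ × κ) : ℝ) - 1 / 2) ^ n ≤ _
    linarith
  have htpos : ∀ n, 0 < t n := by
    intro n
    have h1 : (0 : ℝ) < ((Fintype.card (κ × κ) : ℕ) : ℝ) ^ n := by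
      have : (0 : ℝ) < ((Fintype.card (κ × κ) : ℕ) : ℝ) := by
        exact_mod_cast Fintype.card_pos (α := κ × κ)
      positivity
    have h2 := h1.trans_le (hgrow n)
    have h3 : (0 : ℝ) < ((n : ℝ) + 1) ^ Fintype.card (κ × κ) := by positivity
    exact pos_of_mul_pos_left h2 h3.le
  obtain ⟨ℓ, hℓ, hcpos⟩ := limit_lemma (t := t) (c := c) (δ := δ) (err := err) (m := m) htpos
    (fun n => by
      show ((tdim κ (n + 1) : ℕ) : ℝ) ^ 2 ≤ (tdim κ n : ℝ) * (tdim κ (n + 2) : ℝ)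
      exact_mod_cast tdim_sq_le (κ := κ) n)
    (fun n hn => by
      constructor
      · refine (hlow (n + 1) (by omega)).trans ?_
        show ((finrank F (IZ F κ (p + 1) (n + 1 - m) (Fin (n + 1))) : ℕ) : ℝ) ≤
          (finrank F (Wsp κ F n) : ℝ)
        exact_mod_cast finrank_Wsp_ge ν (finSuccEquiv n).symm
      · show ((finrank F (Wsp κ F n) : ℕ) : ℝ) ≤ (tdim κ (n + 1) : ℝ)
        have h1 := finrank_Wsp_le (κ := κ) (F := F) (finSuccEquiv n).symm
        rw [finrank_TZ (κ := κ) F (Fintype.card_fin (n + 1))] at h1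
        exact_mod_cast h1)
    (fun n hn => by
      constructor
      · refine (hlow n hn).trans ?_
        show ((finrank F (IZ F κ (p + 1) (n - m) (Fin n)) : ℕ) : ℝ) ≤
          (finrank F (Zsp κ F n) : ℝ)
        exact_mod_cast finrank_Zsp_ge ν
      · show ((finrank F (Zsp κ F n) : ℕ) : ℝ) ≤ (tdim κ n : ℝ)
        obtain ⟨n', rfl⟩ : ∃ n', n = n' + 1 := ⟨n - 1, by omega⟩
        have h1 := finrank_Zsp_le (κ := κ) (F := F) n'
        rw [finrank_TZ (κ := κ) F (Fintype.card_fin (n' + 1))] at h1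
        exact_mod_cast h1)
    (err_lemma (Fintype.card_pos (α := κ × κ)) hgrow (2 ^ m) (by positivity))
  let z : ℕ → ℝ := fun n => finrank F (Submodule.span F (Set.range (fun σ : Equiv.Perm (Fin n) =>
        fun x : Fin n → Matrix κ κ F =>
          Submodule.mkQ (Subalgebra.toSubmodule (Subalgebra.center F (Matrix κ κ F)))
            (List.ofFn (fun i => x (σ i))).prod)))
  have hz : ∀ n, z n + δ n = c n := by
    intro n
    show ((_ : ℕ) : ℝ) + ((_ : ℕ) : ℝ) = ((_ : ℕ) : ℝ)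
    exact_mod_cast finrank_central κ F n
  have hlim : Tendsto (fun n => z n / c n) atTop (𝓝 (1 - ℓ)) := by
    refine (tendsto_const_nhds.sub hℓ).congr' ?_
    filter_upwards [hcpos] with n hn
    rw [← hz n]
    have h1 : z n + δ n ≠ 0 := by
      rw [hz n]
      exact hn.ne'
    field_simp
    ring
  refine ⟨1 - ℓ, ?_, ?_, hlim⟩
  · refine ge_of_tendsto hlim ?_
    filter_upwards with n
    exact div_nonneg (Nat.cast_nonneg _) (Nat.cast_nonneg _)
  · refine le_of_tendsto hlim ?_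
    filter_upwards with n
    refine div_le_one_of_le₀ ?_ (Nat.cast_nonneg _)
    rw [← hz n]
    have : 0 ≤ δ n := Nat.cast_nonneg _
    linarith

end Pool.Agent.X302.CZ
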