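import Pool.Agent.X302.CZ.Tr

/-!
# The derivation property of alternating maps of top degree
-/

set_option autoImplicit false
set_option linter.unusedSectionVars false

open Module

namespace Pool.Agent.X302.CZ

section
variable {R : Type} [CommRing R] {M : Type} [AddCommGroup M] [Module R M]

/-- The sum of the values of `f` after applying `L` in one place. -/
def dsum {d : ℕ} (f : M [⋀^Fin d]→ₗ[R] R) (L : M →ₗ[R] M) : M [⋀^Fin d]→ₗ[R] R where
  toMultilinearMap := ∑ i : Fin d, f.toMultilinearMap.compLinearMap
    (fun j => if j = i then L else LinearMap.id)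
  map_eq_zero_of_eq' := by
    intro v p q hv hpq
    have key : ∀ i : Fin d, (fun j => (if j = i then L else LinearMap.id : M →ₗ[R] M) (v j)) =
        Function.update v i (L (v i)) := by
      intro i
      funext j
      by_cases h : j = i
      · subst h
        simp
      · rw [if_neg h, Function.update_of_ne h]
        rfl
    show (∑ i : Fin d, f.toMultilinearMap.compLinearMap
      (fun j => if j = i then L else LinearMap.id)) v = 0
    rw [MultilinearMap.sum_apply]
    simp only [MultilinearMap.compLinearMap_apply, key]
    rw [Finset.sum_eq_add p q hpq]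
    · have h1 : Function.update v q (L (v q)) =
          Function.update v p (L (v p)) ∘ Equiv.swap p q := by
        funext j
        simp only [Function.comp_apply]
        by_cases hq : j = q
        · subst hq
          rw [Equiv.swap_apply_right, Function.update_self, Function.update_self, hv]
        · by_cases hp : j = p
          · subst hp
            rw [Equiv.swap_apply_left, Function.update_of_ne hq, Function.update_of_ne hpq.symm, hv]
          · rw [Equiv.swap_apply_of_ne_of_ne hp hq, Function.update_of_ne hq,
              Function.update_of_ne hp]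
      rw [h1]
      show f _ + f _ = 0
      rw [f.map_swap _ hpq]
      exact add_neg_cancel _
    · intro c _ hc
      exact f.map_eq_zero_of_eq _ (by
        rw [Function.update_of_ne hc.1.symm, Function.update_of_ne hc.2.symm, hv]) hpq
    · intro h
      exact absurd (Finset.mem_univ _) h
    · intro h
      exact absurd (Finset.mem_univ _) h

lemma dsum_apply {d : ℕ} (f : M [⋀^Fin d]→ₗ[R] R) (L : M →ₗ[R] M) (v : Fin d → M) :
    dsum f L v = ∑ i, f (Function.update v i (L (v i))) := by
  have key : ∀ i : Fin d, (fun j => (if j = i then L else LinearMap.id : M →ₗ[R] M) (v j)) =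
      Function.update v i (L (v i)) := by
    intro i
    funext j
    by_cases h : j = i
    · subst h
      simp
    · rw [if_neg h, Function.update_of_ne h]
      rfl
  show (∑ i : Fin d, f.toMultilinearMap.compLinearMap
    (fun j => if j = i then L else LinearMap.id)) v = _
  rw [MultilinearMap.sum_apply]
  simp only [MultilinearMap.compLinearMap_apply, key]
  rfl

/-- Alternating maps of top degree and traces. -/
theorem dsum_eq {d : ℕ} (b : Basis (Fin d) R M) (f : M [⋀^Fin d]→ₗ[R] R) (L : M →ₗ[R] M)
    (v : Fin d → M) :
    ∑ i, f (Function.update v i (L (v i))) = (∑ i, b.repr (L (b i)) i) * f v := by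
  rw [← dsum_apply]
  have : dsum f L = (∑ i, b.repr (L (b i)) i) • f := by
    refine Basis.ext_alternating b ?_
    intro w hw
    rw [dsum_apply, AlternatingMap.smul_apply, smul_eq_mul, Finset.sum_mul]
    have hwb : Function.Bijective w := Finite.injective_iff_bijective.1 hw
    rw [← (Equiv.ofBijective w hwb).sum_comp (fun i => b.repr (L (b i)) i * f fun i => b (w i))]
    apply Finset.sum_congr rfl
    intro i _
    have e1 : L (b (w i)) = ∑ j, b.repr (L (b (w i))) j • b j := (b.sum_repr _).symm
    rw [e1, f.map_update_sum, Finset.sum_eq_single (w i)]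
    · rw [f.map_update_smul]
      simp
    · intro j _ hj
      rw [f.map_update_smul]
      obtain ⟨i', hi'⟩ := hwb.2 j
      have hne : i' ≠ i := by
        rintro rfl
        exact hj hi'.symm
      have : f (Function.update (fun i => b (w i)) i (b j)) = 0 := by
        refine f.map_eq_zero_of_eq _ ?_ hne
        rw [Function.update_of_ne hne, Function.update_self, hi']
      rw [this, smul_zero]
    · intro h
      exact absurd (Finset.mem_univ _) h
  rw [this]
  rfl

end

variable {κ : Type} [Fintype κ] [DecidableEq κ] {R : Type} [CommRing R]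

/-- `g0` as an alternating map of its first letters. -/
noncomputable def g0alt {d : ℕ} (y : Fin d → Matrix κ κ R) :
    (Matrix κ κ R) [⋀^Fin d]→ₗ[R] R :=
  MultilinearMap.alternatization
    ((Matrix.traceLinearMap κ R R).compMultilinearMap
      ((MultilinearMap.mkPiAlgebraFin R d (Matrix κ κ R)).compLinearMap
        fun p => LinearMap.mulRight R (y p)))

lemma g0alt_apply {d : ℕ} (x : Fin d ⊕ Fin d → Matrix κ κ R) :
    g0alt (fun p => x (Sum.inr p)) (fun p => x (Sum.inl p)) = g0 x := by
  rw [g0alt, MultilinearMap.alternatization_apply, g0]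
  rfl

/-- The defining property of `g0`. -/
theorem g0_trace {d : ℕ} (ν : Fin d ≃ κ × κ) (x : Fin d ⊕ Fin d → Matrix κ κ R)
    (a : Matrix κ κ R) :
    ∑ i : Fin d, g0 (Function.update x (Sum.inl i) (x (Sum.inl i) * a)) =
      ((Fintype.card κ : R) * a.trace) * g0 x := by
  have h1 := dsum_eq ((Matrix.stdBasis R κ κ).reindex ν.symm)
    (g0alt fun p => x (Sum.inr p)) (LinearMap.mulRight R a) (fun p => x (Sum.inl p))
  have h2 : ∀ i : Fin d, g0 (Function.update x (Sum.inl i) (x (Sum.inl i) * a)) =
      g0alt (fun p => x (Sum.inr p)) (Function.update (fun p => x (Sum.inl p)) i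
        (LinearMap.mulRight R a (x (Sum.inl i)))) := by
    intro i
    rw [← g0alt_apply]
    congr 1
    funext p
    by_cases hp : p = i
    · subst hp
      simp
    · rw [Function.update_of_ne hp, Function.update_of_ne (by simpa using hp)]
  rw [Finset.sum_congr rfl fun i _ => h2 i, h1, g0alt_apply]
  congr 1
  have h3 : ∀ i : Fin d, (((Matrix.stdBasis R κ κ).reindex ν.symm).repr
      ((LinearMap.mulRight R a) (((Matrix.stdBasis R κ κ).reindex ν.symm) i))) i =
      a (ν i).2 (ν i).2 := by
    intro i
    rw [Basis.repr_reindex_apply, Basis.reindex_apply, Equiv.symm_symm, LinearMap.mulRight_apply]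
    obtain ⟨p, q⟩ := ν i
    rw [Matrix.stdBasis_eq_single]
    have h4 : ∀ (m : Matrix κ κ R), (Matrix.stdBasis R κ κ).repr m (p, q) = m p q := by
      intro m
      rfl
    rw [h4]
    simp
  rw [Finset.sum_congr rfl fun i _ => h3 i, ν.sum_comp (fun z : κ × κ => a z.2 z.2),
    Fintype.sum_prod_type]
  simp [Matrix.trace, Matrix.diag, Finset.card_univ]

end Pool.Agent.X302.CZ
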