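import Mathlib

/-!
# The dimension of the span of integer vectors does not depend on the field
-/

set_option autoImplicit false
set_option linter.unusedSectionVars false

open Module

namespace Pool.Agent.X302.CZ

theorem transfer {S P : Type} [Finite S] (v : S → P → ℤ) (K : Type) [Field K] [CharZero K] :
    finrank K (Submodule.span K (Set.range fun s => fun p => (v s p : K))) =
      finrank ℚ (Submodule.span ℚ (Set.range fun s => fun p => (v s p : ℚ))) := by
  obtain ⟨T, a, ha, hspan, hli⟩ := exists_linearIndependent' ℚ (fun s => fun p => (v s p : ℚ))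
  have : Finite T := Finite.of_injective a ha
  have : Fintype T := Fintype.ofFinite T
  have hK : LinearIndependent K (fun t : T => fun p => (v (a t) p : K)) := by
    rw [Fintype.linearIndependent_iff]
    intro g hg
    have h1 : ∀ φ : Dual ℚ K, ∀ t, φ (g t) = 0 := by
      intro φ
      have h2 := Fintype.linearIndependent_iff.1 hli (fun t => φ (g t))
      apply h2
      funext p
      have h3 := congrFun hg p
      rw [Finset.sum_apply, Pi.zero_apply] at h3
      have h4 := congrArg φ h3
      rw [map_sum, map_zero] at h4
      rw [Finset.sum_apply, Pi.zero_apply, ← h4]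
      apply Finset.sum_congr rfl
      intro t _
      simp only [Pi.smul_apply, Function.comp_apply, smul_eq_mul]
      have h5 : g t * ((v (a t) p : ℤ) : K) = (v (a t) p : ℤ) • g t := by
        rw [zsmul_eq_mul, mul_comm]
      rw [h5, map_zsmul, zsmul_eq_mul, mul_comm]
    intro t
    exact (forall_dual_apply_eq_zero_iff ℚ (g t)).1 fun φ => h1 φ t
  have hspanK : Submodule.span K (Set.range fun s => fun p => (v s p : K)) =
      Submodule.span K (Set.range fun t : T => fun p => (v (a t) p : K)) := by
    apply le_antisymm
    · rw [Submodule.span_le]
      rintro _ ⟨s, rfl⟩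
      have h1 : (fun p => (v s p : ℚ)) ∈
          Submodule.span ℚ (Set.range ((fun s => fun p => (v s p : ℚ)) ∘ a)) := by
        rw [hspan]
        exact Submodule.subset_span ⟨s, rfl⟩
      rw [Submodule.mem_span_range_iff_exists_fun] at h1
      obtain ⟨c, hc⟩ := h1
      rw [SetLike.mem_coe, Submodule.mem_span_range_iff_exists_fun]
      refine ⟨fun t => (c t : K), ?_⟩
      funext p
      have h2 := congrFun hc p
      rw [Finset.sum_apply] at h2 ⊢
      simp only [Pi.smul_apply, Function.comp_apply, smul_eq_mul] at h2 ⊢
      have h3 := congrArg (Rat.cast : ℚ → K) h2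
      push_cast at h3
      exact h3
    · rw [Submodule.span_le]
      rintro _ ⟨t, rfl⟩
      exact Submodule.subset_span ⟨a t, rfl⟩
  rw [hspanK, finrank_span_eq_card hK, ← hspan, finrank_span_eq_card hli]

theorem transfer' {S P : Type} [Finite S] (v : S → P → ℤ) (K K' : Type) [Field K] [CharZero K]
    [Field K'] [CharZero K'] :
    finrank K (Submodule.span K (Set.range fun s => fun p => (v s p : K))) =
      finrank K' (Submodule.span K' (Set.range fun s => fun p => (v s p : K'))) := by
  rw [transfer v K, transfer v K']

end Pool.Agent.X302.CZ
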