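import Pool.Agent.X302.CZ.Units
import Pool.Agent.X302.CZ.Transfer

/-!
# The spaces of multilinear functions given by words
-/

set_option autoImplicit false
set_option linter.unusedSectionVars false

open Module

namespace Pool.Agent.X302.CZ

variable {κ : Type} [Fintype κ] [DecidableEq κ] {F : Type} [Field F]

variable (κ F) in
/-- The span of the multilinear words as functions on matrices. -/
def Wsp (n : ℕ) : Submodule F ((Fin n → Matrix κ κ F) → Matrix κ κ F) :=
  Submodule.span F (Set.range fun σ : Equiv.Perm (Fin n) =>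
    fun x : Fin n → Matrix κ κ F => (List.ofFn fun i => x (σ i)).prod)

instance (n : ℕ) : FiniteDimensional F (Wsp κ F n) :=
  FiniteDimensional.span_of_finite F (Set.finite_range _)

lemma word_mem {n : ℕ} {l : List (Fin n)} (h1 : l.Nodup) (h2 : ∀ a, a ∈ l) :
    (fun x : Fin n → Matrix κ κ F => (l.map x).prod) ∈ Wsp κ F n := by
  let e : Fin l.length ≃ Fin n := List.Nodup.getEquivOfForallMemList l h1 h2
  have hn : l.length = n := by simpa using Fintype.card_congr e
  refine Submodule.subset_span ⟨(finCongr hn.symm).trans e, ?_⟩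
  funext x
  show (List.ofFn fun i => x _).prod = _
  congr 1
  apply List.ext_getElem
  · simp [hn]
  · intro q hq1 hq2
    rw [List.getElem_map, List.getElem_ofFn]
    rfl

lemma multilinear {n : ℕ} {f : (Fin n → Matrix κ κ F) → Matrix κ κ F} (hf : f ∈ Wsp κ F n) :
    ∃ φ : MultilinearMap F (fun _ : Fin n => Matrix κ κ F) (Matrix κ κ F), f = φ := by
  unfold Wsp at hf
  induction hf using Submodule.span_induction with
  | mem f hf =>
    obtain ⟨σ, rfl⟩ := hf
    refine ⟨(MultilinearMap.mkPiAlgebraFin F n (Matrix κ κ F)).domDomCongr σ, ?_⟩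
    funext x
    rw [MultilinearMap.domDomCongr_apply, MultilinearMap.mkPiAlgebraFin_apply]
  | zero => exact ⟨0, rfl⟩
  | add f g _ _ hf hg =>
    obtain ⟨φ, rfl⟩ := hf
    obtain ⟨ψ, rfl⟩ := hg
    exact ⟨φ + ψ, rfl⟩
  | smul c f _ hf =>
    obtain ⟨φ, rfl⟩ := hf
    exact ⟨c • φ, rfl⟩

lemma eq_zero_of_units {n : ℕ} {f : (Fin n → Matrix κ κ F) → Matrix κ κ F} (hf : f ∈ Wsp κ F n)
    (h : ∀ i j : Fin n → κ, f (Eu F i j) = 0) : f = 0 := by
  obtain ⟨φ, rfl⟩ := multilinear hf
  have h1 : φ = 0 := by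
    refine Basis.ext_multilinear (fun _ => Matrix.stdBasis F κ κ) fun v => ?_
    have h2 : (fun i => (Matrix.stdBasis F κ κ) (v i)) =
        Eu F (fun a => (v a).1) (fun a => (v a).2) := by
      funext a
      rw [Eu, ← Matrix.stdBasis_eq_single]
    rw [h2, h]
    rfl
  rw [h1]
  rfl

/-- Extension by a value at `none`. -/
def ext {n : ℕ} (x : Fin n → Matrix κ κ F) (z : Matrix κ κ F) :
    Option (Fin n) → Matrix κ κ F := fun o => o.elim z x

lemma trace_rot (A z B : Matrix κ κ F) : (A * (z * B)).trace = ((B * A) * z).trace := by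
  rw [← mul_assoc, Matrix.trace_mul_comm, ← mul_assoc]

/-- From trace functions to words. -/
lemma phi_mem {n : ℕ} {G : (Option (Fin n) → Matrix κ κ F) → F}
    (hG : G ∈ TrF κ F (Option (Fin n))) :
    (fun x : Fin n → Matrix κ κ F =>
      (Matrix.of fun p q => G (ext x (Matrix.single q p 1)) : Matrix κ κ F)) ∈ Wsp κ F n := by
  let Φ : ((Option (Fin n) → Matrix κ κ F) → F) →ₗ[F]
      ((Fin n → Matrix κ κ F) → Matrix κ κ F) :=
    { toFun := fun G x => Matrix.of fun p q => G (ext x (Matrix.single q p 1))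
      map_add' := fun G G' => rfl
      map_smul' := fun c G => rfl }
  refine span_map_mem Φ ?_ hG
  rintro _ ⟨l, h1, h2, rfl⟩
  obtain ⟨s, t, hl⟩ := List.append_of_mem (h2 none)
  have hperm : (none :: (t ++ s)).Perm l := by
    rw [hl]
    exact ((List.perm_append_comm (l₁ := t) (l₂ := s)).cons none).trans List.perm_middle.symm
  have h1' : (none :: (t ++ s)).Nodup := hperm.nodup_iff.2 h1
  have h2' : ∀ a, a ∈ none :: (t ++ s) := fun a => hperm.mem_iff.2 (h2 a)
  obtain ⟨r, hr⟩ : ∃ r : List (Fin n), r.map some = t ++ s := by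
    have : t ++ s ∈ Set.range (List.map (some : Fin n → Option (Fin n))) := by
      rw [Set.range_list_map]
      intro o ho
      cases o with
      | none => exact absurd ho (List.nodup_cons.1 h1').1
      | some a => exact ⟨a, rfl⟩
    exact this
  rw [← hr] at h1' h2'
  have h3 : r.Nodup := (List.nodup_cons.1 h1').2.of_map _
  have h4 : ∀ a, a ∈ r := by
    intro a
    have := h2' (some a)
    simpa using this
  convert word_mem (κ := κ) (F := F) h3 h4 using 1
  funext x
  ext p q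
  show (((l.map (ext x (Matrix.single q p 1))).prod).trace) = _
  have h5 : ((l.map (ext x (Matrix.single q p 1))).prod).trace =
      ((((t ++ s).map (ext x (Matrix.single q p 1))).prod) * Matrix.single q p 1).trace := by
    have h7 : ext x (Matrix.single q p 1) none = Matrix.single q p 1 := rfl
    rw [hl, List.map_append, List.map_cons, List.prod_append, List.prod_cons, List.map_append,
      List.prod_append, trace_rot, h7]
  have h6 : (t ++ s).map (ext x (Matrix.single q p 1)) = r.map x := by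
    rw [← hr, List.map_map]
    rfl
  rw [h5, h6, Matrix.trace_mul_comm, Matrix.trace_single_mul, one_smul]

section Psi
variable (F)

/-- The values at matrix units of the traces of the values times one more letter. -/
def psi {n : ℕ} {ι : Type} (w : Option (Fin n) ≃ ι) :
    ((Fin n → Matrix κ κ F) → Matrix κ κ F) →ₗ[F] ((ι → κ) × (ι → κ) → F) where
  toFun f ij := f (Eu F (ij.1 ∘ w ∘ some) (ij.2 ∘ w ∘ some)) (ij.2 (w none)) (ij.1 (w none))
  map_add' f g := rfl
  map_smul' c f := rfl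

/-- The values at matrix units of the traces of the values. -/
def theta (n : ℕ) :
    ((Fin n → Matrix κ κ F) → Matrix κ κ F) →ₗ[F] ((Fin n → κ) × (Fin n → κ) → F) where
  toFun f ij := (f (Eu F ij.1 ij.2)).trace
  map_add' f g := by
    funext ij
    simp
  map_smul' c f := by
    funext ij
    simp

/-- The span of the tensors of permutations. -/
def TZ (ι : Type) : Submodule F ((ι → κ) × (ι → κ) → F) :=
  Submodule.span F (Set.range fun ρ : Equiv.Perm ι => fun ij : (ι → κ) × (ι → κ) =>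
    (delZ ρ ij.1 ij.2 : F))

/-- The integer vectors which generate the ideal of `g0`. -/
noncomputable def vI (κ : Type) [Fintype κ] [DecidableEq κ] (d r : ℕ) (ι : Type)
    (eρ : ((Fin d ⊕ Fin d) ⊕ Fin r ≃ ι) × Equiv.Perm (Fin r)) (ij : (ι → κ) × (ι → κ)) : ℤ :=
  g0 (Eu ℤ (ij.1 ∘ eρ.1 ∘ Sum.inl) (ij.2 ∘ eρ.1 ∘ Sum.inl)) *
    delZ eρ.2 (ij.1 ∘ eρ.1 ∘ Sum.inr) (ij.2 ∘ eρ.1 ∘ Sum.inr)

/-- The span of the vectors `vI`. -/
def IZ (κ : Type) [Fintype κ] [DecidableEq κ] (d r : ℕ) (ι : Type) :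
    Submodule F ((ι → κ) × (ι → κ) → F) :=
  Submodule.span F (Set.range fun eρ : ((Fin d ⊕ Fin d) ⊕ Fin r ≃ ι) × Equiv.Perm (Fin r) =>
    fun ij : (ι → κ) × (ι → κ) => (vI κ d r ι eρ ij : F))

end Psi

/-- The function behind `vI`. -/
def gI {d r : ℕ} {ι : Type} (eρ : ((Fin d ⊕ Fin d) ⊕ Fin r ≃ ι) × Equiv.Perm (Fin r))
    (x : ι → Matrix κ κ F) : F :=
  g0 (x ∘ eρ.1 ∘ Sum.inl) * tau eρ.2 (x ∘ eρ.1 ∘ Sum.inr)

lemma gI_Eu {d r : ℕ} {ι : Type} (eρ : ((Fin d ⊕ Fin d) ⊕ Fin r ≃ ι) × Equiv.Perm (Fin r))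
    (ij : (ι → κ) × (ι → κ)) : gI eρ (Eu F ij.1 ij.2) = (vI κ d r ι eρ ij : F) := by
  rw [vI, Int.cast_mul, ← tau_Eu (R := F), ← g0_Eu F]
  rfl

lemma gI_mem [CharZero F] [Nonempty κ] {d r : ℕ} (ν : Fin d ≃ κ × κ) {ι : Type}
    (eρ : ((Fin d ⊕ Fin d) ⊕ Fin r ≃ ι) × Equiv.Perm (Fin r)) :
    (gI eρ : (ι → Matrix κ κ F) → F) ∈ TrF κ F ι :=
  TrF_reindex eρ.1 (conductor (F := F) ν (Fin r) _ _ eρ.2)

/-- Lower bound for the span of the words. -/
lemma IZ_le_psi [CharZero F] [Nonempty κ] {d r n : ℕ} (ν : Fin d ≃ κ × κ) {ι : Type}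
    (w : Option (Fin n) ≃ ι) : IZ F κ d r ι ≤ (Wsp κ F n).map (psi F w) := by
  rw [IZ, Submodule.span_le]
  rintro _ ⟨eρ, rfl⟩
  have h1 := TrF_reindex w.symm (gI_mem (F := F) ν eρ)
  refine ⟨_, phi_mem h1, ?_⟩
  funext ij
  refine Eq.trans ?_ (gI_Eu (F := F) eρ ij)
  show gI eρ (ext (Eu F (ij.1 ∘ w ∘ some) (ij.2 ∘ w ∘ some))
    (Matrix.single (ij.1 (w none)) (ij.2 (w none)) 1) ∘ w.symm) = _
  congr 1
  funext a
  obtain ⟨o, rfl⟩ := w.surjective a
  rw [Function.comp_apply, Equiv.symm_apply_apply]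
  cases o <;> rfl

lemma psi_mem {n : ℕ} {ι : Type} (w : Option (Fin n) ≃ ι) {f} (hf : f ∈ Wsp κ F n) :
    psi F w f ∈ TZ (κ := κ) F ι := by
  refine span_map_mem (psi F w) ?_ hf
  rintro _ ⟨σ, rfl⟩
  have hne : Nonempty ι := ⟨w none⟩
  let l : List ι := (List.ofFn fun p => w (some (σ p))) ++ [w none]
  have h1 : l.Nodup := by
    rw [List.nodup_append]
    refine ⟨?_, by simp, ?_⟩
    · rw [List.nodup_ofFn]
      intro a b hab
      exact σ.injective (Option.some_injective _ (w.injective hab))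
    · intro a ha b hb
      rw [List.mem_ofFn] at ha
      obtain ⟨p, rfl⟩ := ha
      rw [List.mem_singleton] at hb
      rw [hb]
      intro h
      exact Option.some_ne_none _ (w.injective h)
  have h2 : ∀ a, a ∈ l := by
    intro a
    obtain ⟨o, rfl⟩ := w.surjective a
    rw [List.mem_append]
    cases o with
    | none => right; simp
    | some a =>
      left
      rw [List.mem_ofFn]
      exact ⟨σ.symm a, by simp⟩
  obtain ⟨ρ, hρ⟩ := word_del (κ := κ) h1 h2
  refine Submodule.subset_span ⟨ρ, ?_⟩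
  funext ij
  show (delZ ρ ij.1 ij.2 : F) = _
  rw [← hρ F, List.map_append, List.prod_append, List.map_ofFn]
  have h3 : Eu F ij.1 ij.2 (w none) = Matrix.single (ij.1 (w none)) (ij.2 (w none)) 1 := rfl
  rw [List.map_singleton, List.prod_singleton, h3, Matrix.trace_mul_comm,
    Matrix.trace_single_mul, one_smul]
  rfl

lemma psi_inj {n : ℕ} {ι : Type} (w : Option (Fin n) ≃ ι) {f} (hf : f ∈ Wsp κ F n)
    (h : psi F w f = 0) : f = 0 := by
  refine eq_zero_of_units hf fun i j => ?_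
  ext p q
  have h1 := congrFun h ((fun a => (w.symm a).elim q i), (fun a => (w.symm a).elim p j))
  have h2 : psi F w f ((fun a => (w.symm a).elim q i), (fun a => (w.symm a).elim p j)) =
      f (Eu F i j) p q := by
    show f (Eu F (fun a => _) (fun a => _)) _ _ = _
    simp only [Function.comp_apply, Equiv.symm_apply_apply]
    rfl
  rw [h2] at h1
  exact h1

lemma finrank_Wsp_ge [CharZero F] [Nonempty κ] {d r n : ℕ} (ν : Fin d ≃ κ × κ) {ι : Type}
    (w : Option (Fin n) ≃ ι) : finrank F (IZ F κ d r ι) ≤ finrank F (Wsp κ F n) :=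
  (Submodule.finrank_mono (IZ_le_psi ν w)).trans (Submodule.finrank_map_le _ _)

instance (ι : Type) [Finite ι] : FiniteDimensional F (TZ (κ := κ) F ι) :=
  FiniteDimensional.span_of_finite F (Set.finite_range _)

lemma finrank_Wsp_le {n : ℕ} {ι : Type} [Finite ι] (w : Option (Fin n) ≃ ι) :
    finrank F (Wsp κ F n) ≤ finrank F (TZ (κ := κ) F ι) := by
  let L : Wsp κ F n →ₗ[F] TZ (κ := κ) F ι := (psi F w).restrict fun f hf => psi_mem w hf
  refine LinearMap.finrank_le_finrank_of_injective (f := L) ?_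
  rw [← LinearMap.ker_eq_bot, LinearMap.ker_eq_bot']
  intro f hf
  have h1 : psi F w f.1 = 0 := congrArg Subtype.val hf
  exact Subtype.ext (psi_inj w f.2 h1)

variable (κ F) in
/-- The central valued functions. -/
def Zsp (n : ℕ) : Submodule F ((Fin n → Matrix κ κ F) → Matrix κ κ F) where
  carrier := {f | f ∈ Wsp κ F n ∧
    ∀ x, f x ∈ Subalgebra.toSubmodule (Subalgebra.center F (Matrix κ κ F))}
  zero_mem' := ⟨Submodule.zero_mem _, fun x => Submodule.zero_mem _⟩
  add_mem' := fun ha hb => ⟨Submodule.add_mem _ ha.1 hb.1,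
    fun x => Submodule.add_mem _ (ha.2 x) (hb.2 x)⟩
  smul_mem' := fun c a ha => ⟨Submodule.smul_mem _ c ha.1,
    fun x => Submodule.smul_mem _ c (ha.2 x)⟩

lemma Zsp_le (n : ℕ) : Zsp κ F n ≤ Wsp κ F n := fun _ hf => hf.1

instance (n : ℕ) : FiniteDimensional F (Zsp κ F n) :=
  Submodule.finiteDimensional_of_le (Zsp_le n)

/-- Lower bound for the central valued functions. -/
lemma IZ_le_theta [CharZero F] [Nonempty κ] {d r n : ℕ} (ν : Fin d ≃ κ × κ) :
    IZ F κ d r (Fin n) ≤ (Zsp κ F n).map (theta F n) := by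
  rw [IZ, Submodule.span_le]
  rintro _ ⟨eρ, rfl⟩
  have hk : (Fintype.card κ : F) ≠ 0 := Nat.cast_ne_zero.2 Fintype.card_ne_zero
  -- the function `gI eρ x • 1`
  have h0 : (fun x : Fin n → Matrix κ κ F => gI eρ x • (1 : Matrix κ κ F)) ∈ Wsp κ F n := by
    have h1 := conductor (F := F) ν (Option (Fin r)) inferInstance inferInstance
      (Equiv.optionCongr eρ.2)
    let E : (Fin d ⊕ Fin d) ⊕ Option (Fin r) ≃ Option (Fin n) :=
      { toFun := Sum.elim (fun a => some (eρ.1 (Sum.inl a)))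
          (fun o => o.elim none (fun s => some (eρ.1 (Sum.inr s))))
        invFun := fun o => o.elim (Sum.inr none) (fun a => Sum.elim Sum.inl
          (fun s => Sum.inr (some s)) (eρ.1.symm a))
        left_inv := by
          rintro (a | (_ | s))
          · simp
          · rfl
          · simp
        right_inv := by
          rintro (_ | a)
          · rfl
          · obtain ⟨z, rfl⟩ := eρ.1.surjective a
            rcases z with z | z <;> simp }
    have h2 := phi_mem (TrF_reindex E h1)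
    convert h2 using 1
    funext x
    ext p q
    rw [Matrix.of_apply, tau_fix _ (by rfl)]
    have h3 : Equiv.removeNone (Equiv.optionCongr eρ.2) = eρ.2 := Equiv.removeNone_optionCongr _
    rw [h3]
    have h4 : ((ext x (Matrix.single q p 1) ∘ E) ∘ Sum.inr) none = Matrix.single q p 1 := rfl
    rw [h4, Matrix.smul_apply, smul_eq_mul, gI]
    have h5 : (Matrix.single q p (1 : F)).trace = (1 : Matrix κ κ F) p q := by
      by_cases hpq : p = q
      · subst hpq
        rw [Matrix.trace_single_eq_same, Matrix.one_apply_eq]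
      · rw [Matrix.trace_single_eq_of_ne _ _ _ (Ne.symm hpq), Matrix.one_apply_ne hpq]
    rw [h5, mul_comm ((1 : Matrix κ κ F) p q), ← mul_assoc]
    rfl
  have h1 : (fun x : Fin n → Matrix κ κ F => gI eρ x • (1 : Matrix κ κ F)) ∈ Zsp κ F n := by
    refine ⟨h0, fun x => ?_⟩
    exact Submodule.smul_mem _ _ (Subalgebra.one_mem _)
  refine ⟨(Fintype.card κ : F)⁻¹ • (fun x : Fin n → Matrix κ κ F =>
    gI eρ x • (1 : Matrix κ κ F)), Submodule.smul_mem _ _ h1, ?_⟩
  rw [map_smul]
  funext ij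
  show (Fintype.card κ : F)⁻¹ * (gI eρ (Eu F ij.1 ij.2) • (1 : Matrix κ κ F)).trace = _
  rw [gI_Eu, Matrix.trace_smul, Matrix.trace_one, smul_eq_mul]
  field_simp

lemma finrank_Zsp_ge [CharZero F] [Nonempty κ] {d r n : ℕ} (ν : Fin d ≃ κ × κ) :
    finrank F (IZ F κ d r (Fin n)) ≤ finrank F (Zsp κ F n) :=
  (Submodule.finrank_mono (IZ_le_theta ν)).trans (Submodule.finrank_map_le _ _)

lemma theta_mem {n : ℕ} {f} (hf : f ∈ Wsp κ F (n + 1)) :
    theta F (n + 1) f ∈ TZ (κ := κ) F (Fin (n + 1)) := by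
  refine span_map_mem (theta F (n + 1)) ?_ hf
  rintro _ ⟨σ, rfl⟩
  obtain ⟨ρ, hρ⟩ := word_del (κ := κ) (l := List.ofFn σ) (by
    rw [List.nodup_ofFn]
    exact σ.injective) (by
    intro a
    rw [List.mem_ofFn]
    exact σ.surjective a)
  refine Submodule.subset_span ⟨ρ, ?_⟩
  funext ij
  show (delZ ρ ij.1 ij.2 : F) = _
  rw [← hρ F, List.map_ofFn]
  rfl

lemma finrank_Zsp_le [CharZero F] [Nonempty κ] (n : ℕ) :
    finrank F (Zsp κ F (n + 1)) ≤ finrank F (TZ (κ := κ) F (Fin (n + 1))) := by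
  let L : Zsp κ F (n + 1) →ₗ[F] TZ (κ := κ) F (Fin (n + 1)) :=
    (theta F (n + 1)).restrict fun f hf => theta_mem hf.1
  refine LinearMap.finrank_le_finrank_of_injective (f := L) ?_
  rw [← LinearMap.ker_eq_bot, LinearMap.ker_eq_bot']
  intro f hf
  have h1 : theta F (n + 1) f.1 = 0 := congrArg Subtype.val hf
  refine Subtype.ext (eq_zero_of_units f.2.1 fun i j => ?_)
  have h2 : (f.1 (Eu F i j)).trace = 0 := congrFun h1 (i, j)
  have h3 := f.2.2 (Eu F i j)
  rw [Subalgebra.mem_toSubmodule, Algebra.IsCentral.center_eq_bot, Algebra.mem_bot] at h3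
  obtain ⟨c, hc⟩ := h3
  rw [← hc, Algebra.algebraMap_eq_smul_one] at h2 ⊢
  rw [Matrix.trace_smul, Matrix.trace_one, smul_eq_mul] at h2
  have hk : (Fintype.card κ : F) ≠ 0 := Nat.cast_ne_zero.2 Fintype.card_ne_zero
  have h4 : c = 0 := (mul_eq_zero.1 h2).resolve_right hk
  rw [h4, zero_smul]

end Pool.Agent.X302.CZ
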