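import Mathlib

/-!
# Spaces of tensors spanned by permutations, and their contractions
-/

set_option autoImplicit false
set_option linter.unusedSectionVars false

open Module

namespace Pool.Agent.X302.CZ

variable {κ : Type} [Fintype κ] [DecidableEq κ]

open Classical in
/-- The tensor of a bijection. -/
noncomputable def del {I J : Type} (e : J ≃ I) (i : I → κ) (j : J → κ) : ℝ :=
  if ∀ a, j a = i (e a) then 1 else 0

lemma del_of {I J : Type} {e : J ≃ I} {i : I → κ} {j : J → κ} (h : ∀ a, j a = i (e a)) :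
    del e i j = 1 := if_pos h

lemma del_of_not {I J : Type} {e : J ≃ I} {i : I → κ} {j : J → κ} (h : ¬ ∀ a, j a = i (e a)) :
    del e i j = 0 := if_neg h

lemma del_congr {I J I' J' : Type} {e : J ≃ I} {i : I → κ} {j : J → κ} {e' : J' ≃ I'}
    {i' : I' → κ} {j' : J' → κ} (h : (∀ a, j a = i (e a)) ↔ ∀ a, j' a = i' (e' a)) :
    del e i j = del e' i' j' := by
  by_cases h1 : ∀ a, j a = i (e a)
  · rw [del_of h1, del_of (h.1 h1)]
  · rw [del_of_not h1, del_of_not fun h2 => h1 (h.2 h2)]

variable (κ) in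
/-- The span of the tensors of the bijections. -/
def Tsp (I J : Type) : Submodule ℝ ((I → κ) → (J → κ) → ℝ) :=
  Submodule.span ℝ (Set.range fun e : J ≃ I => (del e : (I → κ) → (J → κ) → ℝ))

lemma del_mem {I J : Type} (e : J ≃ I) : (del e : (I → κ) → (J → κ) → ℝ) ∈ Tsp κ I J :=
  Submodule.subset_span ⟨e, rfl⟩

/-- A linear map preserves the spans if it does so on the generators. -/
lemma map_mem {I J I' J' : Type}
    (Φ : ((I → κ) → (J → κ) → ℝ) →ₗ[ℝ] ((I' → κ) → (J' → κ) → ℝ))
    (h : ∀ e : J ≃ I, Φ (del e) ∈ Tsp κ I' J') {f : (I → κ) → (J → κ) → ℝ}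
    (hf : f ∈ Tsp κ I J) : Φ f ∈ Tsp κ I' J' := by
  have h1 : Tsp κ I J ≤ (Tsp κ I' J').comap Φ := by
    rw [Tsp, Submodule.span_le]
    rintro _ ⟨e, rfl⟩
    exact h e
  exact h1 hf

lemma reindex_mem {I J I' J' : Type} (a : I ≃ I') (b : J ≃ J') {f : (I → κ) → (J → κ) → ℝ}
    (hf : f ∈ Tsp κ I J) : (fun i j => f (i ∘ a) (j ∘ b)) ∈ Tsp κ I' J' := by
  let Φ : ((I → κ) → (J → κ) → ℝ) →ₗ[ℝ] ((I' → κ) → (J' → κ) → ℝ) :=
    { toFun := fun f i j => f (i ∘ a) (j ∘ b)
      map_add' := fun f g => rfl
      map_smul' := fun c f => rfl }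
  refine map_mem Φ ?_ hf
  intro e
  have : Φ (del e) = del (b.symm.trans (e.trans a)) := by
    funext i j
    apply del_congr
    constructor
    · intro h y
      have := h (b.symm y)
      simpa using this
    · intro h x
      have := h (b x)
      simpa using this
  rw [this]
  exact del_mem _

lemma flip_mem {I J : Type} {f : (I → κ) → (J → κ) → ℝ} (hf : f ∈ Tsp κ I J) :
    (fun j i => f i j) ∈ Tsp κ J I := by
  let Φ : ((I → κ) → (J → κ) → ℝ) →ₗ[ℝ] ((J → κ) → (I → κ) → ℝ) :=
    { toFun := fun f j i => f i j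
      map_add' := fun f g => rfl
      map_smul' := fun c f => rfl }
  refine map_mem Φ ?_ hf
  intro e
  have : Φ (del e) = del e.symm := by
    funext j i
    apply del_congr
    constructor
    · intro h y
      have := h (e.symm y)
      simpa using this.symm
    · intro h x
      have := h (e x)
      simpa using this.symm
  rw [this]
  exact del_mem _

/-- The product of two tensors. -/
def tens {I J I' J' : Type} (f : (I → κ) → (J → κ) → ℝ) (g : (I' → κ) → (J' → κ) → ℝ) :
    (I ⊕ I' → κ) → (J ⊕ J' → κ) → ℝ :=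
  fun i j => f (i ∘ Sum.inl) (j ∘ Sum.inl) * g (i ∘ Sum.inr) (j ∘ Sum.inr)

lemma tens_mem {I J I' J' : Type} {f : (I → κ) → (J → κ) → ℝ} {g : (I' → κ) → (J' → κ) → ℝ}
    (hf : f ∈ Tsp κ I J) (hg : g ∈ Tsp κ I' J') : tens f g ∈ Tsp κ (I ⊕ I') (J ⊕ J') := by
  let Φ : ((I → κ) → (J → κ) → ℝ) →ₗ[ℝ] ((I ⊕ I' → κ) → (J ⊕ J' → κ) → ℝ) :=
    { toFun := fun f => tens f g
      map_add' := fun f g => by
        funext i j
        simp [tens, add_mul]
      map_smul' := fun c f => by
        funext i j
        simp [tens, mul_assoc] }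
  refine map_mem Φ ?_ hf
  intro e
  let Ψ : ((I' → κ) → (J' → κ) → ℝ) →ₗ[ℝ] ((I ⊕ I' → κ) → (J ⊕ J' → κ) → ℝ) :=
    { toFun := fun g => tens (del e) g
      map_add' := fun f g => by
        funext i j
        simp [tens, mul_add]
      map_smul' := fun c f => by
        funext i j
        simp [tens]
        ring }
  refine map_mem Ψ ?_ hg
  intro e'
  have : Ψ (del e') = del (Equiv.sumCongr e e') := by
    funext i j
    show del e _ _ * del e' _ _ = _
    by_cases h1 : ∀ a, (j ∘ Sum.inl) a = (i ∘ Sum.inl) (e a)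
    · by_cases h2 : ∀ a, (j ∘ Sum.inr) a = (i ∘ Sum.inr) (e' a)
      · rw [del_of h1, del_of h2, del_of, mul_one]
        rintro (x | x)
        · exact h1 x
        · exact h2 x
      · rw [del_of_not h2, mul_zero]
        refine (del_of_not fun h => ?_).symm
        exact h2 fun a => h (Sum.inr a)
    · rw [del_of_not h1, zero_mul]
      refine (del_of_not fun h => ?_).symm
      exact h1 fun a => h (Sum.inl a)
  rw [this]
  exact del_mem _

/-- Extension by a value at `none`. -/
def opt {I : Type} (c : κ) (i : I → κ) : Option I → κ := fun o => o.elim c i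

lemma sum_opt {I J : Type} (e : Option J ≃ Option I) (i : I → κ) (j : J → κ) :
    ∑ c : κ, del e (opt c i) (opt c j) =
      (if e none = none then (Fintype.card κ : ℝ) else 1) * del (Equiv.removeNone e) i j := by
  by_cases h : e none = none
  · rw [if_pos h]
    have h1 : ∀ c : κ, del e (opt c i) (opt c j) = del (Equiv.removeNone e) i j := by
      intro c
      apply del_congr
      have h2 : ∀ a, opt c i (e (some a)) = i (Equiv.removeNone e a) := by
        intro a
        have h3 : ∃ x', e (some a) = some x' := by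
          rw [← Option.ne_none_iff_exists']
          intro h4
          rw [← h] at h4
          exact Option.some_ne_none a (e.injective h4)
        rw [← Equiv.removeNone_some e h3]
        rfl
      constructor
      · intro h3 a
        rw [← h2 a, ← h3 (some a)]
        rfl
      · intro h3 o
        cases o with
        | none => rw [h]; rfl
        | some a =>
          rw [h2 a, ← h3 a]
          rfl
    rw [Finset.sum_congr rfl fun c _ => h1 c, Finset.sum_const, Finset.card_univ, nsmul_eq_mul]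
  · rw [if_neg h, one_mul]
    obtain ⟨b, hb⟩ := Option.ne_none_iff_exists'.1 h
    rw [Finset.sum_eq_single (i b)]
    · apply del_congr
      have h2 : ∀ a, opt (i b) i (e (some a)) = i (Equiv.removeNone e a) := by
        intro a
        by_cases h3 : e (some a) = none
        · have h4 := Equiv.removeNone_none e h3
          rw [hb] at h4
          rw [h3, Option.some_injective _ h4]
          rfl
        · rw [← Equiv.removeNone_some e (Option.ne_none_iff_exists'.1 h3)]
          rfl
      constructor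
      · intro h3 a
        rw [← h2 a, ← h3 (some a)]
        rfl
      · intro h3 o
        cases o with
        | none => rw [hb]; rfl
        | some a =>
          rw [h2 a, ← h3 a]
          rfl
    · intro c _ hc
      apply del_of_not
      intro h3
      apply hc
      have := h3 none
      rw [hb] at this
      exact this
    · intro h3
      exact absurd (Finset.mem_univ _) h3

lemma contr_one {I J : Type} {f : (Option I → κ) → (Option J → κ) → ℝ}
    (hf : f ∈ Tsp κ (Option I) (Option J)) :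
    (fun i j => ∑ c : κ, f (opt c i) (opt c j)) ∈ Tsp κ I J := by
  let Φ : ((Option I → κ) → (Option J → κ) → ℝ) →ₗ[ℝ] ((I → κ) → (J → κ) → ℝ) :=
    { toFun := fun f i j => ∑ c : κ, f (opt c i) (opt c j)
      map_add' := fun f g => by
        funext i j
        exact Finset.sum_add_distrib
      map_smul' := fun c f => by
        funext i j
        simp [Finset.mul_sum] }
  refine map_mem Φ ?_ hf
  intro e
  have : Φ (del e) = (if e none = none then (Fintype.card κ : ℝ) else 1) •
      del (Equiv.removeNone e) := by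
    funext i j
    exact sum_opt e i j
  rw [this]
  exact Submodule.smul_mem _ _ (del_mem _)

/-- The bijection `I ⊕ Fin (m + 1) ≃ Option (I ⊕ Fin m)`. -/
def optSum (I : Type) (m : ℕ) : I ⊕ Fin (m + 1) ≃ Option (I ⊕ Fin m) where
  toFun := Sum.elim (fun a => some (Sum.inl a)) (Fin.cons none fun b => some (Sum.inr b))
  invFun := fun o => o.elim (Sum.inr 0) (Sum.elim Sum.inl fun b => Sum.inr b.succ)
  left_inv := by
    rintro (a | b)
    · rfl
    · refine Fin.cases ?_ (fun b => ?_) b
      · rfl
      · rfl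
  right_inv := by
    rintro (_ | (a | b))
    · rfl
    · rfl
    · rfl

lemma optSum_elim {I : Type} {m : ℕ} (c : κ) (i : I → κ) (x : Fin m → κ) :
    (opt c (Sum.elim i x)) ∘ optSum I m = Sum.elim i (Fin.cons c x : Fin (m + 1) → κ) := by
  funext z
  rcases z with a | b
  · rfl
  · refine Fin.cases ?_ (fun b => ?_) b
    · rfl
    · rfl

lemma contr_fin (m : ℕ) : ∀ {I J : Type} {f : (I ⊕ Fin m → κ) → (J ⊕ Fin m → κ) → ℝ},
    f ∈ Tsp κ (I ⊕ Fin m) (J ⊕ Fin m) →
    (fun i j => ∑ x : Fin m → κ, f (Sum.elim i x) (Sum.elim j x)) ∈ Tsp κ I J := by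
  induction m with
  | zero =>
    intro I J f hf
    have h1 := reindex_mem (Equiv.sumEmpty I (Fin 0)) (Equiv.sumEmpty J (Fin 0)) hf
    convert h1 using 1
    funext i j
    rw [Fintype.sum_unique]
    have h2 : ∀ (K : Type) (i : K → κ), Sum.elim i (default : Fin 0 → κ) =
        i ∘ (Equiv.sumEmpty K (Fin 0)) := by
      intro K i
      funext z
      rcases z with a | b
      · rfl
      · exact b.elim0
    rw [h2, h2]
  | succ m ih =>
    intro I J f hf
    have h1 := reindex_mem (optSum I m) (optSum J m) hf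
    have h2 := contr_one h1
    have h3 := ih h2
    convert h3 using 1
    funext i j
    simp only [optSum_elim]
    rw [← (Fin.consEquiv fun _ : Fin (m + 1) => κ).sum_comp, Fintype.sum_prod_type,
      Finset.sum_comm]
    rfl

/-- Contraction of the indices in a finite set `K`. -/
lemma contr {I J K : Type} [Fintype K] [DecidableEq K] {f : (I ⊕ K → κ) → (J ⊕ K → κ) → ℝ}
    (hf : f ∈ Tsp κ (I ⊕ K) (J ⊕ K)) :
    (fun i j => ∑ x : K → κ, f (Sum.elim i x) (Sum.elim j x)) ∈ Tsp κ I J := by
  let w := Fintype.equivFin K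
  have h1 := reindex_mem (Equiv.sumCongr (Equiv.refl I) w) (Equiv.sumCongr (Equiv.refl J) w) hf
  have h2 := contr_fin _ h1
  convert h2 using 1
  funext i j
  rw [← (Equiv.arrowCongr w (Equiv.refl κ)).symm.sum_comp]
  apply Finset.sum_congr rfl
  intro x _
  have h3 : ∀ (L : Type) (i : L → κ), Sum.elim i ((Equiv.arrowCongr w (Equiv.refl κ)).symm x) =
      (Sum.elim i x) ∘ (Equiv.sumCongr (Equiv.refl L) w) := by
    intro L i
    funext z
    rcases z with a | b
    · rfl
    · rfl
  rw [h3, h3]

/-- Composition of tensors: the indices in `K` and `L` are contracted. -/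
lemma comp_mem {I J I' J' K L : Type} [Fintype K] [DecidableEq K] [Fintype L] [DecidableEq L]
    {f : (I ⊕ K → κ) → (J ⊕ L → κ) → ℝ} {g : (I' ⊕ L → κ) → (J' ⊕ K → κ) → ℝ}
    (hf : f ∈ Tsp κ (I ⊕ K) (J ⊕ L)) (hg : g ∈ Tsp κ (I' ⊕ L) (J' ⊕ K)) :
    (fun (i : I ⊕ I' → κ) (j : J ⊕ J' → κ) => ∑ x : K → κ, ∑ y : L → κ,
      f (Sum.elim (i ∘ Sum.inl) x) (Sum.elim (j ∘ Sum.inl) y) *
        g (Sum.elim (i ∘ Sum.inr) y) (Sum.elim (j ∘ Sum.inr) x)) ∈
      Tsp κ (I ⊕ I') (J ⊕ J') := by
  have h1 := tens_mem hf hg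
  let a : (I ⊕ K) ⊕ (I' ⊕ L) ≃ (I ⊕ I') ⊕ (K ⊕ L) := Equiv.sumSumSumComm I K I' L
  let b : (J ⊕ L) ⊕ (J' ⊕ K) ≃ (J ⊕ J') ⊕ (K ⊕ L) :=
    (Equiv.sumSumSumComm J L J' K).trans (Equiv.sumCongr (Equiv.refl _) (Equiv.sumComm L K))
  have h2 := contr (reindex_mem a b h1)
  convert h2 using 1
  funext i j
  rw [← (Equiv.sumArrowEquivProdArrow K L κ).symm.sum_comp, Fintype.sum_prod_type]
  apply Finset.sum_congr rfl
  intro x _
  apply Finset.sum_congr rfl
  intro y _
  have e1 : (Sum.elim i ((Equiv.sumArrowEquivProdArrow K L κ).symm (x, y)) ∘ a) ∘ Sum.inl =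
      Sum.elim (i ∘ Sum.inl) x := by
    funext z
    rcases z with z | z <;> rfl
  have e2 : (Sum.elim i ((Equiv.sumArrowEquivProdArrow K L κ).symm (x, y)) ∘ a) ∘ Sum.inr =
      Sum.elim (i ∘ Sum.inr) y := by
    funext z
    rcases z with z | z <;> rfl
  have e3 : (Sum.elim j ((Equiv.sumArrowEquivProdArrow K L κ).symm (x, y)) ∘ b) ∘ Sum.inl =
      Sum.elim (j ∘ Sum.inl) y := by
    funext z
    rcases z with z | z <;> rfl
  have e4 : (Sum.elim j ((Equiv.sumArrowEquivProdArrow K L κ).symm (x, y)) ∘ b) ∘ Sum.inr =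
      Sum.elim (j ∘ Sum.inr) x := by
    funext z
    rcases z with z | z <;> rfl
  rw [tens, e1, e2, e3, e4]

end Pool.Agent.X302.CZ
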