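import Pool.Agent.X302.CZ.Alt
import Pool.Agent.X302.CZ.Wires

/-!
# `g0` times any product of traces is a combination of traces of single words
-/

set_option autoImplicit false
set_option linter.unusedSectionVars false

open Module

namespace Pool.Agent.X302.CZ

variable {κ : Type} [Fintype κ] [DecidableEq κ] {F : Type} [Field F]

/-- The conductor property. -/
theorem conductor [CharZero F] [Nonempty κ] {d : ℕ} (ν : Fin d ≃ κ × κ) (S : Type) [Finite S] :
    ∀ (_ : Fintype S) (_ : DecidableEq S) (ρ : Equiv.Perm S),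
      (fun x : (Fin d ⊕ Fin d) ⊕ S → Matrix κ κ F =>
        g0 (x ∘ Sum.inl) * tau ρ (x ∘ Sum.inr)) ∈ TrF κ F ((Fin d ⊕ Fin d) ⊕ S) := by
  refine Finite.induction_empty_option (P := fun S : Type => ∀ (_ : Fintype S) (_ : DecidableEq S)
    (ρ : Equiv.Perm S), (fun x : (Fin d ⊕ Fin d) ⊕ S → Matrix κ κ F =>
        g0 (x ∘ Sum.inl) * tau ρ (x ∘ Sum.inr)) ∈ TrF κ F ((Fin d ⊕ Fin d) ⊕ S)) ?_ ?_ ?_ S
  · intro S S' e h _ _ ρ
    have i1 : Fintype S := Fintype.ofEquiv S' e.symm
    have i2 : DecidableEq S := Classical.decEq S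
    have h1 := TrF_reindex (Equiv.sumCongr (Equiv.refl _) e)
      (h i1 i2 ((e.trans ρ).trans e.symm))
    convert h1 using 1
    funext x
    rw [tau_reindex e ρ]
    rfl
  · intro _ _ ρ
    have h1 := TrF_reindex (Equiv.sumEmpty _ PEmpty).symm (g0_mem (κ := κ) (R := F) d)
    convert h1 using 1
    funext x
    have : tau ρ (x ∘ Sum.inr) = 1 := by
      rw [tau, Fintype.sum_unique]
      simp
    rw [this, mul_one]
    rfl
  · intro S iS h i1 i2 ρ
    have i3 : DecidableEq S := Classical.decEq S
    obtain rfl : i1 = instFintypeOption := Subsingleton.elim _ _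
    obtain rfl : i2 = @Option.instDecidableEq S i3 :=
      Subsingleton.elim _ _
    have hk : (Fintype.card κ : F) ≠ 0 := Nat.cast_ne_zero.2 Fintype.card_ne_zero
    -- the inclusion of the letters
    let E : Option ((Fin d ⊕ Fin d) ⊕ S) ≃ (Fin d ⊕ Fin d) ⊕ Option S :=
      { toFun := fun o => o.elim (Sum.inr none) (Sum.elim Sum.inl (fun s => Sum.inr (some s)))
        invFun := Sum.elim (fun a => some (Sum.inl a))
          (fun o => o.elim none (fun s => some (Sum.inr s)))
        left_inv := by
          rintro (_ | (a | s))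
          · rfl
          · rfl
          · rfl
        right_inv := by
          rintro (a | (_ | s))
          · rfl
          · rfl
          · rfl }
    by_cases hρ : ρ none = none
    · have h0 := h iS i3 (Equiv.removeNone ρ)
      have h1 : ∀ i : Fin d, (fun x : (Fin d ⊕ Fin d) ⊕ Option S → Matrix κ κ F =>
          g0 (Function.update (x ∘ Sum.inl) (Sum.inl i) (x (Sum.inl (Sum.inl i)) *
            x (Sum.inr none))) * tau (Equiv.removeNone ρ) (x ∘ Sum.inr ∘ some)) ∈
          TrF κ F ((Fin d ⊕ Fin d) ⊕ Option S) := by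
        intro i
        have h2 := TrF_reindex E (TrF_sub (Sum.inl (Sum.inl i)) h0)
        convert h2 using 1
        funext x
        rw [Sum.update_inl_comp_inl, Sum.update_inl_comp_inr]
        rfl
      have h3 : (fun x : (Fin d ⊕ Fin d) ⊕ Option S → Matrix κ κ F =>
          g0 (x ∘ Sum.inl) * tau ρ (x ∘ Sum.inr)) = (Fintype.card κ : F)⁻¹ •
          ∑ i : Fin d, (fun x : (Fin d ⊕ Fin d) ⊕ Option S → Matrix κ κ F =>
          g0 (Function.update (x ∘ Sum.inl) (Sum.inl i) (x (Sum.inl (Sum.inl i)) *
            x (Sum.inr none))) * tau (Equiv.removeNone ρ) (x ∘ Sum.inr ∘ some)) := by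
        funext x
        rw [Pi.smul_apply, Finset.sum_apply, ← Finset.sum_mul, smul_eq_mul, tau_fix ρ hρ]
        have h4 := g0_trace ν (x ∘ Sum.inl) (x (Sum.inr none))
        simp only [Function.comp_apply] at h4 ⊢
        rw [h4]
        field_simp
        rfl
      rw [h3]
      exact Submodule.smul_mem _ _ (Submodule.sum_mem _ fun i _ => h1 i)
    · obtain ⟨b, hb⟩ : ∃ b, ρ (some b) = none := by
        obtain ⟨o, ho⟩ := ρ.surjective none
        cases o with
        | none => exact absurd ho hρ
        | some b => exact ⟨b, ho⟩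
      have h0 := h iS i3 (Equiv.removeNone ρ)
      have h2 := TrF_reindex E (TrF_sub (Sum.inr b) h0)
      convert h2 using 1
      funext x
      rw [tau_move ρ b hb, Sum.update_inr_comp_inr, Sum.update_inr_comp_inl]
      rfl

end Pool.Agent.X302.CZ
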