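import Pool.Agent.X302.CZ.LC
import Pool.Agent.X302.CZ.Wires

/-!
# Log-convexity of the dimensions
-/

set_option autoImplicit false
set_option linter.unusedSectionVars false

open Module Matrix

namespace Pool.Agent.X302.CZ

variable {κ : Type} [Fintype κ] [DecidableEq κ]

lemma finrank_Tsp_le {I J I' J' : Type} [Finite I] [Finite J] [Finite I'] [Finite J']
    (a : I ≃ I') (b : J ≃ J') :
    finrank ℝ (Tsp κ I J) ≤ finrank ℝ (Tsp κ I' J') := by
  have := Fintype.ofFinite I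
  have := Fintype.ofFinite J
  have := Fintype.ofFinite I'
  have := Fintype.ofFinite J'
  classical
  let Φ : ((I → κ) → (J → κ) → ℝ) →ₗ[ℝ] ((I' → κ) → (J' → κ) → ℝ) :=
    { toFun := fun f i j => f (i ∘ a) (j ∘ b)
      map_add' := fun f g => rfl
      map_smul' := fun c f => rfl }
  let Ψ : Tsp κ I J →ₗ[ℝ] Tsp κ I' J' := Φ.restrict fun f hf => reindex_mem a b hf
  refine LinearMap.finrank_le_finrank_of_injective (f := Ψ) ?_
  intro f g h
  apply Subtype.ext
  have h1 : Φ (f : (I → κ) → (J → κ) → ℝ) = Φ g := congrArg Subtype.val h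
  funext i j
  have h2 := congrFun (congrFun h1 (i ∘ a.symm)) (j ∘ b.symm)
  have h3 : ∀ f : (I → κ) → (J → κ) → ℝ, Φ f (i ∘ a.symm) (j ∘ b.symm) = f i j := by
    intro f
    show f ((i ∘ a.symm) ∘ a) ((j ∘ b.symm) ∘ b) = f i j
    congr 1
    · funext x; simp
    · funext x; simp
  rw [h3, h3] at h2
  exact h2

lemma finrank_Tsp {I J I' J' : Type} [Finite I] [Finite J] [Finite I'] [Finite J']
    (a : I ≃ I') (b : J ≃ J') :
    finrank ℝ (Tsp κ I J) = finrank ℝ (Tsp κ I' J') :=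
  le_antisymm (finrank_Tsp_le a b) (finrank_Tsp_le a.symm b.symm)

variable (κ) in
/-- The dimension of the span of the permutations of `m` tensor factors. -/
noncomputable def tdim (m : ℕ) : ℕ := finrank ℝ (Tsp κ (Fin m) (Fin m))

lemma finrank_Tsp_eq {I J : Type} [Fintype I] [Fintype J] {m : ℕ} (hI : Fintype.card I = m)
    (hJ : Fintype.card J = m) : finrank ℝ (Tsp κ I J) = tdim κ m :=
  finrank_Tsp (Fintype.equivFinOfCardEq hI) (Fintype.equivFinOfCardEq hJ)

variable (nb nc : Bool → ℕ)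

variable (κ) in
/-- The index set of the basis of the sum of two mixed tensor spaces. -/
abbrev ZZ := Σ o : Bool, (Fin (nb o) → κ) × (Fin (nc o) → κ)

variable {nb nc}

/-- A block of a matrix. -/
def blk (o o' : Bool) (M : Matrix (ZZ κ nb nc) (ZZ κ nb nc) ℝ) :
    (Fin (nc o) ⊕ Fin (nb o') → κ) → (Fin (nb o) ⊕ Fin (nc o') → κ) → ℝ :=
  fun i j => M ⟨o, (j ∘ Sum.inl, i ∘ Sum.inl)⟩ ⟨o', (i ∘ Sum.inr, j ∘ Sum.inr)⟩

variable (κ nb nc) in
/-- The algebra of the matrices all of whose blocks are combinations of bijections. -/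
def Alg : Submodule ℝ (Matrix (ZZ κ nb nc) (ZZ κ nb nc) ℝ) where
  carrier := {M | ∀ o o', blk o o' M ∈ Tsp κ _ _}
  add_mem' := fun h1 h2 o o' => Submodule.add_mem _ (h1 o o') (h2 o o')
  zero_mem' := fun o o' => Submodule.zero_mem _
  smul_mem' := fun c _ h o o' => Submodule.smul_mem _ c (h o o')

/-- A block with the two kinds of indices exchanged. -/
def swp (o' o'' : Bool) (N : Matrix (ZZ κ nb nc) (ZZ κ nb nc) ℝ) :
    (Fin (nb o'') ⊕ Fin (nc o') → κ) → (Fin (nc o'') ⊕ Fin (nb o') → κ) → ℝ :=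
  fun i j => blk o' o'' N (i ∘ Equiv.sumComm (Fin (nc o')) (Fin (nb o'')))
    (j ∘ Equiv.sumComm (Fin (nb o')) (Fin (nc o'')))

lemma swp_mem {o' o'' : Bool} {N : Matrix (ZZ κ nb nc) (ZZ κ nb nc) ℝ}
    (h : blk o' o'' N ∈ Tsp κ _ _) : swp o' o'' N ∈ Tsp κ _ _ :=
  reindex_mem (Equiv.sumComm (Fin (nc o')) (Fin (nb o'')))
    (Equiv.sumComm (Fin (nb o')) (Fin (nc o''))) h

lemma blk_mul (o o'' : Bool) (M N : Matrix (ZZ κ nb nc) (ZZ κ nb nc) ℝ) :
    blk o o'' (M * N) = ∑ o' : Bool, fun (i : Fin (nc o) ⊕ Fin (nb o'') → κ)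
      (j : Fin (nb o) ⊕ Fin (nc o'') → κ) => ∑ x : Fin (nb o') → κ, ∑ y : Fin (nc o') → κ,
        blk o o' M (Sum.elim (i ∘ Sum.inl) x) (Sum.elim (j ∘ Sum.inl) y) *
        swp o' o'' N (Sum.elim (i ∘ Sum.inr) y) (Sum.elim (j ∘ Sum.inr) x) := by
  funext i j
  rw [Finset.sum_apply, Finset.sum_apply]
  show (M * N) _ _ = _
  rw [Matrix.mul_apply, Fintype.sum_sigma]
  apply Finset.sum_congr rfl
  intro o' _
  rw [Fintype.sum_prod_type]
  rfl

lemma one_mem_Alg : (1 : Matrix (ZZ κ nb nc) (ZZ κ nb nc) ℝ) ∈ Alg κ nb nc := by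
  intro o o'
  by_cases h : o = o'
  · subst h
    have : blk o o (1 : Matrix (ZZ κ nb nc) (ZZ κ nb nc) ℝ) =
        del (Equiv.sumComm (Fin (nb o)) (Fin (nc o))) := by
      funext i j
      by_cases h1 : ∀ a, j a = i (Equiv.sumComm (Fin (nb o)) (Fin (nc o)) a)
      · rw [del_of h1]
        have e : (⟨o, (j ∘ Sum.inl, i ∘ Sum.inl)⟩ : ZZ κ nb nc) =
            ⟨o, (i ∘ Sum.inr, j ∘ Sum.inr)⟩ := by
          have e1 : j ∘ Sum.inl = i ∘ Sum.inr := by
            funext a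
            exact h1 (Sum.inl a)
          have e2 : i ∘ Sum.inl = j ∘ Sum.inr := by
            funext a
            exact (h1 (Sum.inr a)).symm
          rw [e1, e2]
        unfold blk
        rw [e, Matrix.one_apply_eq]
      · rw [del_of_not h1]
        unfold blk
        rw [Matrix.one_apply_ne]
        intro h2
        apply h1
        have h3 := Sigma.mk.inj_iff.1 h2
        have h4 := Prod.ext_iff.1 (eq_of_heq h3.2)
        rintro (a | a)
        · exact congrFun h4.1 a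
        · exact (congrFun h4.2 a).symm
    rw [this]
    exact del_mem _
  · have : blk o o' (1 : Matrix (ZZ κ nb nc) (ZZ κ nb nc) ℝ) = 0 := by
      funext i j
      unfold blk
      rw [Matrix.one_apply_ne]
      · rfl
      · intro h2
        exact h (Sigma.mk.inj_iff.1 h2).1
    rw [this]
    exact Submodule.zero_mem _

lemma mul_mem_Alg {M N : Matrix (ZZ κ nb nc) (ZZ κ nb nc) ℝ} (hM : M ∈ Alg κ nb nc)
    (hN : N ∈ Alg κ nb nc) : M * N ∈ Alg κ nb nc := by
  intro o o''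
  rw [blk_mul]
  refine Submodule.sum_mem _ fun o' _ => ?_
  exact comp_mem (I := Fin (nc o)) (J := Fin (nb o)) (I' := Fin (nb o'')) (J' := Fin (nc o''))
    (K := Fin (nb o')) (L := Fin (nc o')) (hM o o') (swp_mem (hN o' o''))

lemma transpose_mem_Alg {M : Matrix (ZZ κ nb nc) (ZZ κ nb nc) ℝ} (hM : M ∈ Alg κ nb nc) :
    Mᵀ ∈ Alg κ nb nc := by
  intro o o'
  have h1 := reindex_mem (Equiv.sumComm (Fin (nb o')) (Fin (nc o)))
    (Equiv.sumComm (Fin (nc o')) (Fin (nb o))) (flip_mem (hM o' o))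
  have h2 : blk o o' Mᵀ = fun (i : Fin (nc o) ⊕ Fin (nb o') → κ)
      (j : Fin (nb o) ⊕ Fin (nc o') → κ) =>
      blk o' o M (j ∘ Equiv.sumComm (Fin (nc o')) (Fin (nb o)))
        (i ∘ Equiv.sumComm (Fin (nb o')) (Fin (nc o))) := by
    funext i j
    unfold blk
    rw [Matrix.transpose_apply]
    rfl
  rw [h2]
  exact h1

lemma isStar_Alg : IsStar (Alg κ nb nc) :=
  ⟨one_mem_Alg, fun _ _ h1 h2 => mul_mem_Alg h1 h2, fun _ h => transpose_mem_Alg h⟩

/-- The projection to an object. -/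
def pro (o : Bool) : Matrix (ZZ κ nb nc) (ZZ κ nb nc) ℝ :=
  Matrix.diagonal fun z => if z.1 = o then 1 else 0

lemma pro_mul_pro (o : Bool) : (pro o : Matrix (ZZ κ nb nc) (ZZ κ nb nc) ℝ) * pro o = pro o := by
  rw [pro, Matrix.diagonal_mul_diagonal]
  congr 1
  funext z
  by_cases h : z.1 = o <;> simp [h]

lemma pro_transpose (o : Bool) : (pro o : Matrix (ZZ κ nb nc) (ZZ κ nb nc) ℝ)ᵀ = pro o := by
  rw [pro, Matrix.diagonal_transpose]

lemma pro_mem (o : Bool) : (pro o : Matrix (ZZ κ nb nc) (ZZ κ nb nc) ℝ) ∈ Alg κ nb nc := by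
  intro o1 o2
  by_cases h : o1 = o
  · have : blk o1 o2 (pro o : Matrix (ZZ κ nb nc) (ZZ κ nb nc) ℝ) =
        blk o1 o2 (1 : Matrix (ZZ κ nb nc) (ZZ κ nb nc) ℝ) := by
      funext i j
      unfold blk pro
      rw [Matrix.diagonal_apply, Matrix.one_apply, if_pos (show _ = o from h)]
    rw [this]
    exact isStar_Alg.one o1 o2
  · have : blk o1 o2 (pro o : Matrix (ZZ κ nb nc) (ZZ κ nb nc) ℝ) = 0 := by
      funext i j
      unfold blk pro
      rw [Matrix.diagonal_apply, if_neg (show ¬ _ = o from h)]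
      simp
    rw [this]
    exact Submodule.zero_mem _

lemma pro_mul_apply (o o' : Bool) (M : Matrix (ZZ κ nb nc) (ZZ κ nb nc) ℝ)
    (z z' : ZZ κ nb nc) :
    ((pro o : Matrix (ZZ κ nb nc) (ZZ κ nb nc) ℝ) * M *
      (pro o' : Matrix (ZZ κ nb nc) (ZZ κ nb nc) ℝ)) z z' = if z.1 = o ∧ z'.1 = o' then M z z' else 0 := by
  rw [pro, pro, Matrix.mul_diagonal, Matrix.diagonal_mul]
  by_cases h1 : z.1 = o
  · by_cases h2 : z'.1 = o'
    · simp [h1, h2]
    · simp [h2]
  · simp [h1]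

lemma blk_elim (o o' : Bool) (M : Matrix (ZZ κ nb nc) (ZZ κ nb nc) ℝ)
    (y : Fin (nb o) → κ) (z : Fin (nc o) → κ) (y' : Fin (nb o') → κ) (z' : Fin (nc o') → κ) :
    M ⟨o, (y, z)⟩ ⟨o', (y', z')⟩ = blk o o' M (Sum.elim z y') (Sum.elim y z') := rfl

lemma finrank_corner_Alg (o o' : Bool) :
    finrank ℝ (corner (Alg κ nb nc) (pro o) (pro o')) =
      finrank ℝ (Tsp κ (Fin (nc o) ⊕ Fin (nb o')) (Fin (nb o) ⊕ Fin (nc o'))) := by
  let B : Matrix (ZZ κ nb nc) (ZZ κ nb nc) ℝ →ₗ[ℝ]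
      ((Fin (nc o) ⊕ Fin (nb o') → κ) → (Fin (nb o) ⊕ Fin (nc o') → κ) → ℝ) :=
    { toFun := blk o o'
      map_add' := fun M N => rfl
      map_smul' := fun c M => rfl }
  have hB : ∀ M ∈ corner (Alg κ nb nc) (pro o) (pro o'), B M ∈ Tsp κ _ _ :=
    fun M hM => hM.1 o o'
  let Ψ := B.restrict hB
  have hinj : Function.Injective Ψ := by
    rw [← LinearMap.ker_eq_bot, LinearMap.ker_eq_bot']
    intro M hM
    have h1 : blk o o' (M : Matrix (ZZ κ nb nc) (ZZ κ nb nc) ℝ) = 0 := congrArg Subtype.val hM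
    apply Subtype.ext
    ext z z'
    have h2 : (M : Matrix (ZZ κ nb nc) (ZZ κ nb nc) ℝ) z z' = _ :=
      (congrFun (congrFun M.2.2 z) z').symm
    rw [h2, pro_mul_apply]
    split_ifs with h
    · obtain ⟨oz, y, c⟩ := z
      obtain ⟨oz', y', c'⟩ := z'
      obtain ⟨h3, h4⟩ := h
      simp only at h3 h4
      subst h3
      subst h4
      exact congrFun (congrFun h1 (Sum.elim c y')) (Sum.elim y c')
    · rfl
  have hsurj : Function.Surjective Ψ := by
    rintro ⟨f, hf⟩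
    let M : Matrix (ZZ κ nb nc) (ZZ κ nb nc) ℝ := fun z z' =>
      if h : z.1 = o ∧ z'.1 = o' then
        f (Sum.elim (h.1 ▸ z.2.2) (h.2 ▸ z'.2.1)) (Sum.elim (h.1 ▸ z.2.1) (h.2 ▸ z'.2.2))
      else 0
    have hM1 : blk o o' M = f := by
      funext i j
      unfold blk
      show dite _ _ _ = _
      rw [dif_pos ⟨rfl, rfl⟩]
      congr 1
      · funext a
        rcases a with a | a <;> rfl
      · funext a
        rcases a with a | a <;> rfl
    have hM2 : ∀ o1 o2, ¬ (o1 = o ∧ o2 = o') → blk o1 o2 M = 0 := by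
      intro o1 o2 h
      funext i j
      unfold blk
      show dite _ _ _ = _
      rw [dif_neg h]
      rfl
    have hM3 : M ∈ corner (Alg κ nb nc) (pro o) (pro o') := by
      refine ⟨?_, ?_⟩
      · intro o1 o2
        by_cases h : o1 = o ∧ o2 = o'
        · obtain ⟨rfl, rfl⟩ := h
          rw [hM1]
          exact hf
        · rw [hM2 o1 o2 h]
          exact Submodule.zero_mem _
      · ext z z'
        rw [pro_mul_apply]
        split_ifs with h
        · rfl
        · show 0 = dite _ _ _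
          rw [dif_neg h]
    exact ⟨⟨M, hM3⟩, Subtype.ext hM1⟩
  exact (LinearEquiv.ofBijective Ψ ⟨hinj, hsurj⟩).finrank_eq

/-- **Log-convexity.** -/
theorem tdim_sq_le (n : ℕ) : tdim κ (n + 1) ^ 2 ≤ tdim κ n * tdim κ (n + 2) := by
  let nb : Bool → ℕ := fun o => cond o (n + 1) n
  let nc : Bool → ℕ := fun o => cond o 1 0
  have h := corner_sq_le (isStar_Alg (κ := κ) (nb := nb) (nc := nc)) (pro_mem false)
    (pro_mem true) (pro_mul_pro false) (pro_mul_pro true) (pro_transpose false)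
    (pro_transpose true)
  rw [finrank_corner_Alg, finrank_corner_Alg, finrank_corner_Alg,
    finrank_Tsp_eq (m := n + 1) (by simp [nb, nc]) (by simp [nb, nc]),
    finrank_Tsp_eq (m := n) (by simp [nb, nc]) (by simp [nb, nc]),
    finrank_Tsp_eq (m := n + 2) (by simp [nb, nc]; omega) (by simp [nb, nc])] at h
  exact h

end Pool.Agent.X302.CZ
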