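import Mathlib

/-!
# Dimensions of the corners of a self-adjoint matrix algebra
-/

set_option autoImplicit false
set_option linter.unusedSectionVars false

open Matrix Module

namespace Pool.Agent.X302.CZ

variable {Z : Type*} [Fintype Z] [DecidableEq Z]

/-- The Hilbert-Schmidt scalar product. -/
def hs (x y : Matrix Z Z ℝ) : ℝ := (xᵀ * y).trace

lemma hs_eq (x y : Matrix Z Z ℝ) : hs x y = ∑ q, ∑ p, x p q * y p q := by
  simp [hs, Matrix.trace, Matrix.mul_apply]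

lemma hs_comm (x y : Matrix Z Z ℝ) : hs x y = hs y x := by
  simp only [hs_eq, mul_comm]

lemma hs_add_right (x y z : Matrix Z Z ℝ) : hs x (y + z) = hs x y + hs x z := by
  simp [hs, mul_add]

lemma hs_add_left (x y z : Matrix Z Z ℝ) : hs (x + y) z = hs x z + hs y z := by
  simp [hs, add_mul]

lemma hs_smul_right (c : ℝ) (x y : Matrix Z Z ℝ) : hs x (c • y) = c * hs x y := by
  simp [hs]

lemma hs_smul_left (c : ℝ) (x y : Matrix Z Z ℝ) : hs (c • x) y = c * hs x y := by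
  simp [hs]

lemma hs_mul_left (b x y : Matrix Z Z ℝ) : hs (b * x) y = hs x (bᵀ * y) := by
  simp [hs, Matrix.transpose_mul, Matrix.mul_assoc]

lemma hs_mul_right (b x y : Matrix Z Z ℝ) : hs (x * b) y = hs x (y * bᵀ) := by
  simp only [hs, Matrix.transpose_mul]
  rw [Matrix.mul_assoc, Matrix.trace_mul_comm, Matrix.mul_assoc]

lemma hs_transpose (x y : Matrix Z Z ℝ) : hs xᵀ yᵀ = hs x y := by
  simp only [hs_eq, Matrix.transpose_apply]
  rw [Finset.sum_comm]

lemma hs_sum_right {ι : Type*} (s : Finset ι) (x : Matrix Z Z ℝ) (f : ι → Matrix Z Z ℝ) :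
    hs x (∑ i ∈ s, f i) = ∑ i ∈ s, hs x (f i) := by
  simp [hs, Matrix.mul_sum, Matrix.trace_sum]

/-- An orthonormal basis of a space of matrices. -/
lemma exists_onb (A : Submodule ℝ (Matrix Z Z ℝ)) : ∃ (d : ℕ) (b : Basis (Fin d) ℝ A),
    ∀ (x : A) (s : Fin d), b.repr x s = hs (b s : Matrix Z Z ℝ) x := by
  classical
  let E := EuclideanSpace ℝ (Z × Z)
  let φ : Matrix Z Z ℝ ≃ₗ[ℝ] E :=
    (LinearEquiv.curry ℝ ℝ Z Z).symm.trans (WithLp.linearEquiv 2 ℝ (Z × Z → ℝ)).symm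
  have hφ : ∀ x y : Matrix Z Z ℝ, inner ℝ (φ x) (φ y) = hs x y := by
    intro x y
    rw [hs_eq, PiLp.inner_apply, Fintype.sum_prod_type_right]
    apply Finset.sum_congr rfl
    intro q _
    apply Finset.sum_congr rfl
    intro p _
    show y p q * x p q = x p q * y p q
    ring
  let A' := A.map (φ : Matrix Z Z ℝ →ₗ[ℝ] E)
  let e : A ≃ₗ[ℝ] A' := φ.submoduleMap A
  let o := stdOrthonormalBasis ℝ A'
  refine ⟨_, o.toBasis.map e.symm, ?_⟩
  intro x s
  have h1 : (o.toBasis.map e.symm).repr x s = o.toBasis.repr (e x) s := by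
    rw [Basis.map_repr]
    rfl
  rw [h1, OrthonormalBasis.coe_toBasis_repr_apply, OrthonormalBasis.repr_apply_apply]
  have h2 : inner ℝ (o s) (e x) = inner ℝ ((o s : A') : E) ((e x : A') : E) := rfl
  rw [h2]
  have h3 : ((e x : A') : E) = φ (x : Matrix Z Z ℝ) := rfl
  have h4 : ((o s : A') : E) = φ ((o.toBasis.map e.symm) s : Matrix Z Z ℝ) := by
    rw [Basis.map_apply, OrthonormalBasis.coe_toBasis]
    have : (e (e.symm (o s)) : A') = o s := e.apply_symm_apply _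
    conv_lhs => rw [← this]
    rfl
  rw [h3, h4, hφ]

/-- A self-adjoint unital subalgebra. -/
structure IsStar (A : Submodule ℝ (Matrix Z Z ℝ)) : Prop where
  one : (1 : Matrix Z Z ℝ) ∈ A
  mul : ∀ x y, x ∈ A → y ∈ A → x * y ∈ A
  tr : ∀ x, x ∈ A → xᵀ ∈ A

section

variable {A : Submodule ℝ (Matrix Z Z ℝ)} {d : ℕ} (b : Basis (Fin d) ℝ A)

/-- The operator `x ↦ ∑ b_s x b_sᵀ`. -/
noncomputable def T (x : Matrix Z Z ℝ) : Matrix Z Z ℝ :=
  ∑ s, (b s : Matrix Z Z ℝ) * x * (b s : Matrix Z Z ℝ)ᵀ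

lemma T_add (x y : Matrix Z Z ℝ) : T b (x + y) = T b x + T b y := by
  simp only [T, mul_add, add_mul, Finset.sum_add_distrib]

lemma T_smul (c : ℝ) (x : Matrix Z Z ℝ) : T b (c • x) = c • T b x := by
  simp only [T, Matrix.mul_smul, Matrix.smul_mul, Finset.smul_sum]

variable {b}

lemma expand (hb : ∀ (x : A) (s : Fin d), b.repr x s = hs (b s : Matrix Z Z ℝ) x)
    {x : Matrix Z Z ℝ} (hx : x ∈ A) :
    x = ∑ s, hs (b s : Matrix Z Z ℝ) x • (b s : Matrix Z Z ℝ) := by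
  have h := b.sum_repr ⟨x, hx⟩
  have h2 := congrArg (fun y : A => (y : Matrix Z Z ℝ)) h
  simp only [Submodule.coe_sum, Submodule.coe_smul, hb] at h2
  exact h2.symm

lemma T_comm (hA : IsStar A)
    (hb : ∀ (x : A) (s : Fin d), b.repr x s = hs (b s : Matrix Z Z ℝ) x)
    {c : Matrix Z Z ℝ} (hc : c ∈ A) (x : Matrix Z Z ℝ) : c * T b x = T b x * c := by
  have h1 : c * T b x = ∑ s, ∑ t, hs (b t : Matrix Z Z ℝ) (c * b s) •
      ((b t : Matrix Z Z ℝ) * x * (b s : Matrix Z Z ℝ)ᵀ) := by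
    rw [T, Finset.mul_sum]
    apply Finset.sum_congr rfl
    intro s _
    have h := expand hb (hA.mul c (b s) hc (b s).2)
    calc c * ((b s : Matrix Z Z ℝ) * x * (b s : Matrix Z Z ℝ)ᵀ)
        = (c * b s) * x * (b s : Matrix Z Z ℝ)ᵀ := by simp only [Matrix.mul_assoc]
      _ = (∑ t, hs (b t : Matrix Z Z ℝ) (c * b s) • (b t : Matrix Z Z ℝ)) * x *
          (b s : Matrix Z Z ℝ)ᵀ := by rw [← h]
      _ = _ := by
        rw [Finset.sum_mul, Finset.sum_mul]
        simp only [Matrix.smul_mul]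
  have h2 : T b x * c = ∑ t, ∑ s, hs (b t : Matrix Z Z ℝ) (c * b s) •
      ((b t : Matrix Z Z ℝ) * x * (b s : Matrix Z Z ℝ)ᵀ) := by
    rw [T, Finset.sum_mul]
    apply Finset.sum_congr rfl
    intro t _
    have h := expand hb (hA.mul cᵀ (b t) (hA.tr _ hc) (b t).2)
    have h' : (b t : Matrix Z Z ℝ)ᵀ * c = (cᵀ * (b t : Matrix Z Z ℝ))ᵀ := by
      rw [Matrix.transpose_mul, Matrix.transpose_transpose]
    calc (b t : Matrix Z Z ℝ) * x * (b t : Matrix Z Z ℝ)ᵀ * c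
        = (b t : Matrix Z Z ℝ) * x * (cᵀ * (b t : Matrix Z Z ℝ))ᵀ := by
          rw [Matrix.mul_assoc, h']
      _ = (b t : Matrix Z Z ℝ) * x *
          (∑ s, hs (b s : Matrix Z Z ℝ) (cᵀ * b t) • (b s : Matrix Z Z ℝ))ᵀ := by rw [← h]
      _ = _ := by
        rw [Matrix.transpose_sum, Finset.mul_sum]
        apply Finset.sum_congr rfl
        intro s _
        rw [Matrix.transpose_smul, Matrix.mul_smul, hs_comm (b t : Matrix Z Z ℝ), hs_mul_left]
  rw [h1, h2, Finset.sum_comm]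

lemma T_eq' (hA : IsStar A)
    (hb : ∀ (x : A) (s : Fin d), b.repr x s = hs (b s : Matrix Z Z ℝ) x) (x : Matrix Z Z ℝ) :
    ∑ s, (b s : Matrix Z Z ℝ)ᵀ * x * (b s : Matrix Z Z ℝ) = T b x := by
  have h1 : ∑ s, (b s : Matrix Z Z ℝ)ᵀ * x * (b s : Matrix Z Z ℝ) =
      ∑ s, ∑ t, hs (b t : Matrix Z Z ℝ) (b s : Matrix Z Z ℝ)ᵀ •
        ((b t : Matrix Z Z ℝ) * x * (b s : Matrix Z Z ℝ)) := by
    apply Finset.sum_congr rfl
    intro s _
    have h := expand hb (hA.tr (b s) (b s).2)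
    calc (b s : Matrix Z Z ℝ)ᵀ * x * (b s : Matrix Z Z ℝ)
        = (∑ t, hs (b t : Matrix Z Z ℝ) (b s : Matrix Z Z ℝ)ᵀ • (b t : Matrix Z Z ℝ)) * x *
          (b s : Matrix Z Z ℝ) := by rw [← h]
      _ = _ := by
        rw [Finset.sum_mul, Finset.sum_mul]
        simp only [Matrix.smul_mul]
  have h2 : T b x = ∑ t, ∑ s, hs (b t : Matrix Z Z ℝ) (b s : Matrix Z Z ℝ)ᵀ •
        ((b t : Matrix Z Z ℝ) * x * (b s : Matrix Z Z ℝ)) := by
    rw [T]
    apply Finset.sum_congr rfl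
    intro t _
    have h := expand hb (hA.tr (b t) (b t).2)
    calc (b t : Matrix Z Z ℝ) * x * (b t : Matrix Z Z ℝ)ᵀ
        = (b t : Matrix Z Z ℝ) * x *
          (∑ s, hs (b s : Matrix Z Z ℝ) (b t : Matrix Z Z ℝ)ᵀ • (b s : Matrix Z Z ℝ)) := by
            rw [← h]
      _ = _ := by
        rw [Finset.mul_sum]
        apply Finset.sum_congr rfl
        intro s _
        rw [Matrix.mul_smul, ← hs_transpose, Matrix.transpose_transpose, hs_comm]
  rw [h1, h2, Finset.sum_comm]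

lemma T_symm (hA : IsStar A)
    (hb : ∀ (x : A) (s : Fin d), b.repr x s = hs (b s : Matrix Z Z ℝ) x) (x y : Matrix Z Z ℝ) :
    hs x (T b y) = hs (T b x) y := by
  rw [← T_eq' hA hb x, T, hs_sum_right, hs_comm _ y, hs_sum_right]
  apply Finset.sum_congr rfl
  intro s _
  rw [hs_comm y]
  have h1 := hs_mul_left ((b s : Matrix Z Z ℝ)ᵀ) x (y * (b s : Matrix Z Z ℝ)ᵀ)
  rw [Matrix.transpose_transpose, ← Matrix.mul_assoc] at h1
  have h2 := hs_mul_right (b s : Matrix Z Z ℝ) ((b s : Matrix Z Z ℝ)ᵀ * x) y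
  rw [← h1, h2]

lemma T_T (hA : IsStar A)
    (hb : ∀ (x : A) (s : Fin d), b.repr x s = hs (b s : Matrix Z Z ℝ) x) (x : Matrix Z Z ℝ) :
    T b (T b x) = T b x * T b 1 := by
  rw [T]
  have h : ∀ s, (b s : Matrix Z Z ℝ) * T b x * (b s : Matrix Z Z ℝ)ᵀ =
      T b x * ((b s : Matrix Z Z ℝ) * 1 * (b s : Matrix Z Z ℝ)ᵀ) := by
    intro s
    rw [T_comm hA hb (b s).2, Matrix.mul_one, Matrix.mul_assoc]
  rw [Finset.sum_congr rfl fun s _ => h s, ← Finset.mul_sum]
  rfl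

lemma T_one_posDef (hA : IsStar A)
    (hb : ∀ (x : A) (s : Fin d), b.repr x s = hs (b s : Matrix Z Z ℝ) x) :
    (T b (1 : Matrix Z Z ℝ)).PosDef := by
  have hpsd : (T b (1 : Matrix Z Z ℝ)).PosSemidef := by
    rw [T]
    apply Matrix.posSemidef_sum
    intro s _
    rw [Matrix.mul_one]
    exact Matrix.posSemidef_self_mul_conjTranspose (b s : Matrix Z Z ℝ)
  refine Matrix.PosDef.of_dotProduct_mulVec_pos hpsd.isHermitian ?_
  intro v hv
  have h0 : 0 ≤ star v ⬝ᵥ (T b (1 : Matrix Z Z ℝ)) *ᵥ v := hpsd.dotProduct_mulVec_nonneg v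
  rcases h0.lt_or_eq with h | h
  · exact h
  · exfalso
    apply hv
    have h1 : star v ⬝ᵥ (T b (1 : Matrix Z Z ℝ)) *ᵥ v =
        ∑ s, ((b s : Matrix Z Z ℝ)ᵀ *ᵥ v) ⬝ᵥ ((b s : Matrix Z Z ℝ)ᵀ *ᵥ v) := by
      rw [T, Matrix.sum_mulVec, dotProduct_sum]
      apply Finset.sum_congr rfl
      intro s _
      rw [Matrix.mul_one, ← Matrix.mulVec_mulVec, Matrix.dotProduct_mulVec]
      rw [star_trivial, ← Matrix.mulVec_transpose]
    rw [h1] at h
    have h2 : ∀ s, (b s : Matrix Z Z ℝ)ᵀ *ᵥ v = 0 := by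
      intro s
      have h3 := (Finset.sum_eq_zero_iff_of_nonneg (fun s _ => Finset.sum_nonneg fun i _ => mul_self_nonneg _)).1
        h.symm s (Finset.mem_univ s)
      exact dotProduct_self_eq_zero.1 h3
    have h4 : v = (1 : Matrix Z Z ℝ)ᵀ *ᵥ v := by simp
    rw [h4, expand hb hA.one, Matrix.transpose_sum, Matrix.sum_mulVec]
    apply Finset.sum_eq_zero
    intro s _
    rw [Matrix.transpose_smul, Matrix.smul_mulVec, h2, smul_zero]

/-- The operator `T` is positive semidefinite. -/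
lemma T_nonneg (hA : IsStar A)
    (hb : ∀ (x : A) (s : Fin d), b.repr x s = hs (b s : Matrix Z Z ℝ) x) (x : Matrix Z Z ℝ) :
    0 ≤ hs x (T b x) := by
  have hpd := T_one_posDef hA hb
  set h := T b (1 : Matrix Z Z ℝ) with hh
  have hu : IsUnit h.det := hpd.isUnit.map Matrix.detMonoidHom
  have hinv : h⁻¹.PosDef := hpd.inv
  have hcomm : ∀ s, h⁻¹ * (b s : Matrix Z Z ℝ)ᵀ = (b s : Matrix Z Z ℝ)ᵀ * h⁻¹ := by
    intro s
    have h1 : (b s : Matrix Z Z ℝ)ᵀ * h = h * (b s : Matrix Z Z ℝ)ᵀ :=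
      T_comm hA hb (hA.tr _ (b s).2) 1
    calc h⁻¹ * (b s : Matrix Z Z ℝ)ᵀ = h⁻¹ * ((b s : Matrix Z Z ℝ)ᵀ * h) * h⁻¹ := by
          rw [Matrix.mul_assoc, Matrix.mul_assoc, Matrix.mul_nonsing_inv _ hu, Matrix.mul_one]
      _ = (b s : Matrix Z Z ℝ)ᵀ * h⁻¹ := by
          rw [h1, ← Matrix.mul_assoc, Matrix.nonsing_inv_mul _ hu, Matrix.one_mul]
  have hT : ∀ x, T b (x * h⁻¹) = T b x * h⁻¹ := by
    intro x
    rw [T, T, Finset.sum_mul]
    apply Finset.sum_congr rfl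
    intro s _
    rw [← Matrix.mul_assoc, Matrix.mul_assoc _ h⁻¹, hcomm, ← Matrix.mul_assoc]
  have h1 : T b x = T b (T b (x * h⁻¹)) := by
    rw [T_T hA hb, ← hh, hT, Matrix.mul_assoc, Matrix.nonsing_inv_mul _ hu, Matrix.mul_one]
  rw [h1, T_symm hA hb, hT]
  have h2 : hs (T b x) (T b x * h⁻¹) = (T b x * h⁻¹ * (T b x)ᵀ).trace := by
    rw [hs, Matrix.trace_mul_comm]
  rw [h2]
  have h3 := hinv.posSemidef.mul_mul_conjTranspose_same (T b x)
  exact h3.trace_nonneg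

/-- The Cauchy-Schwarz inequality for `T`. -/
lemma T_cs (hA : IsStar A)
    (hb : ∀ (x : A) (s : Fin d), b.repr x s = hs (b s : Matrix Z Z ℝ) x) (x y : Matrix Z Z ℝ) :
    hs x (T b y) ^ 2 ≤ hs x (T b x) * hs y (T b y) := by
  have h1 : ∀ r : ℝ, 0 ≤ hs y (T b y) * (r * r) + 2 * hs x (T b y) * r + hs x (T b x) := by
    intro r
    have h2 := T_nonneg hA hb (x + r • y)
    rw [T_add, T_smul, hs_add_left, hs_add_right, hs_add_right, hs_smul_left, hs_smul_left,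
      hs_smul_right, hs_smul_right, T_symm hA hb y x, hs_comm (T b y) x] at h2
    linarith
  have h3 := discrim_le_zero h1
  unfold discrim at h3
  nlinarith

end

/-- The corner `f A e`. -/
def corner (A : Submodule ℝ (Matrix Z Z ℝ)) (f e : Matrix Z Z ℝ) :
    Submodule ℝ (Matrix Z Z ℝ) where
  carrier := {x | x ∈ A ∧ f * x * e = x}
  add_mem' := by
    rintro x y ⟨h1, h2⟩ ⟨h3, h4⟩
    exact ⟨A.add_mem h1 h3, by rw [mul_add, add_mul, h2, h4]⟩
  zero_mem' := ⟨A.zero_mem, by simp⟩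
  smul_mem' := by
    rintro c x ⟨h1, h2⟩
    exact ⟨A.smul_mem c h1, by rw [Matrix.mul_smul, Matrix.smul_mul, h2]⟩

lemma finrank_corner {A : Submodule ℝ (Matrix Z Z ℝ)} {d : ℕ} (b : Basis (Fin d) ℝ A)
    (hb : ∀ (x : A) (s : Fin d), b.repr x s = hs (b s : Matrix Z Z ℝ) x)
    (hA : IsStar A) {f e : Matrix Z Z ℝ}
    (hf : f ∈ A) (he : e ∈ A) (hff : f * f = f) (hee : e * e = e) (hft : fᵀ = f) :
    (finrank ℝ (corner A f e) : ℝ) = hs f (T b e) := by
  let Q : A →ₗ[ℝ] A :=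
    { toFun := fun x => ⟨f * x * e, hA.mul _ _ (hA.mul _ _ hf x.2) he⟩
      map_add' := by
        intro x y
        apply Subtype.ext
        show f * ((x : Matrix Z Z ℝ) + y) * e = f * x * e + f * y * e
        rw [mul_add, add_mul]
      map_smul' := by
        intro c x
        apply Subtype.ext
        show f * (c • (x : Matrix Z Z ℝ)) * e = c • (f * x * e)
        rw [Matrix.mul_smul, Matrix.smul_mul] }
  have hle : corner A f e ≤ A := fun x hx => hx.1
  let p : Submodule ℝ A := (corner A f e).comap A.subtype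
  have hp : LinearMap.IsProj p Q := by
    constructor
    · intro x
      refine ⟨(Q x).2, ?_⟩
      show f * (f * (x : Matrix Z Z ℝ) * e) * e = f * x * e
      calc f * (f * (x : Matrix Z Z ℝ) * e) * e = (f * f) * x * (e * e) := by
            simp only [Matrix.mul_assoc]
        _ = f * x * e := by rw [hff, hee]
    · intro x hx
      apply Subtype.ext
      exact hx.2
  have hfree : Module.Free ℝ p := Module.Free.of_divisionRing ℝ p
  have hfree' : Module.Free ℝ (LinearMap.ker Q) :=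
    Module.Free.of_divisionRing ℝ (LinearMap.ker Q)
  have h1 := hp.trace
  have h2 : finrank ℝ p = finrank ℝ (corner A f e) :=
    (Submodule.comapSubtypeEquivOfLe hle).finrank_eq
  rw [← h2, ← h1, LinearMap.trace_eq_matrix_trace ℝ b Q, Matrix.trace]
  rw [T, hs_sum_right]
  apply Finset.sum_congr rfl
  intro s _
  rw [Matrix.diag_apply, LinearMap.toMatrix_apply, hb]
  show hs (b s : Matrix Z Z ℝ) (f * (b s : Matrix Z Z ℝ) * e) = _
  rw [hs, hs, hft, Matrix.trace_mul_comm]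
  simp only [Matrix.mul_assoc]

/-- **The dimensions of the corners of a self-adjoint algebra.** -/
theorem corner_sq_le {A : Submodule ℝ (Matrix Z Z ℝ)} (hA : IsStar A) {f e : Matrix Z Z ℝ}
    (hf : f ∈ A) (he : e ∈ A) (hff : f * f = f) (hee : e * e = e) (hft : fᵀ = f)
    (het : eᵀ = e) :
    finrank ℝ (corner A f e) ^ 2 ≤ finrank ℝ (corner A f f) * finrank ℝ (corner A e e) := by
  obtain ⟨d, b, hb⟩ := exists_onb A
  have h := T_cs hA hb f e
  rw [← finrank_corner b hb hA hf he hff hee hft, ← finrank_corner b hb hA hf hf hff hff hft,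
    ← finrank_corner b hb hA he he hee hee het] at h
  exact_mod_cast h

end Pool.Agent.X302.CZ
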