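import Mathlib

/-!
# Trace functions and the conductor of the trace of the empty word
-/

set_option autoImplicit false
set_option linter.unusedSectionVars false

open Module

namespace Pool.Agent.X302.CZ

lemma span_map_mem {R V W : Type*} [CommRing R] [AddCommGroup V] [Module R V] [AddCommGroup W]
    [Module R W] (Φ : V →ₗ[R] W) {s : Set V} {T : Submodule R W} (h : ∀ v ∈ s, Φ v ∈ T) {v : V}
    (hv : v ∈ Submodule.span R s) : Φ v ∈ T := by
  have h1 : Submodule.span R s ≤ T.comap Φ := by
    rw [Submodule.span_le]
    exact h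
  exact h1 hv

variable {κ : Type} [Fintype κ] [DecidableEq κ] {R : Type} [CommRing R]

variable (κ R) in
/-- The span of the traces of the words in which each letter of `ι` occurs exactly once. -/
def TrF (ι : Type) : Submodule R ((ι → Matrix κ κ R) → R) :=
  Submodule.span R {g | ∃ l : List ι, l.Nodup ∧ (∀ a, a ∈ l) ∧
    g = fun x => ((l.map x).prod).trace}

lemma TrF_mem {ι : Type} {l : List ι} (h1 : l.Nodup) (h2 : ∀ a, a ∈ l) :
    (fun x : ι → Matrix κ κ R => ((l.map x).prod).trace) ∈ TrF κ R ι :=
  Submodule.subset_span ⟨l, h1, h2, rfl⟩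

lemma TrF_reindex {ι ι' : Type} (e : ι ≃ ι') {g : (ι → Matrix κ κ R) → R}
    (hg : g ∈ TrF κ R ι) : (fun x : ι' → Matrix κ κ R => g (x ∘ e)) ∈ TrF κ R ι' := by
  refine span_map_mem (LinearMap.funLeft R R (fun x : ι' → Matrix κ κ R => x ∘ e)) ?_ hg
  rintro _ ⟨l, h1, h2, rfl⟩
  have h3 : (fun x : ι' → Matrix κ κ R => (((l.map e).map x).prod).trace) ∈ TrF κ R ι' := by
    refine TrF_mem (h1.map e.injective) fun a => ?_
    rw [List.mem_map]
    exact ⟨e.symm a, h2 _, e.apply_symm_apply a⟩
  convert h3 using 1
  funext x
  simp [LinearMap.funLeft]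

/-- The letter `b` is multiplied on the right by the new letter `none`. -/
lemma TrF_sub {ι : Type} [DecidableEq ι] (b : ι) {g : (ι → Matrix κ κ R) → R}
    (hg : g ∈ TrF κ R ι) :
    (fun x : Option ι → Matrix κ κ R => g (Function.update (x ∘ some) b (x (some b) * x none))) ∈
      TrF κ R (Option ι) := by
  refine span_map_mem (LinearMap.funLeft R R (fun x : Option ι → Matrix κ κ R =>
    Function.update (x ∘ some) b (x (some b) * x none))) ?_ hg
  rintro _ ⟨l, h1, h2, rfl⟩
  obtain ⟨s, t, hl⟩ := List.append_of_mem (h2 b)
  have hperm : (s.map some ++ some b :: none :: t.map some).Perm (none :: l.map some) := by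
    rw [hl, List.map_append, List.map_cons]
    have e1 : (s.map some ++ some b :: none :: t.map some) =
        (s.map some ++ [some b]) ++ none :: t.map some := by simp
    have e2 : (none :: (s.map some ++ some b :: t.map some)) =
        none :: ((s.map some ++ [some b]) ++ t.map some) := by simp
    rw [e1, e2]
    exact List.perm_middle
  have h3 : (fun x : Option ι → Matrix κ κ R =>
      (((s.map some ++ some b :: none :: t.map some).map x).prod).trace) ∈
      TrF κ R (Option ι) := by
    refine TrF_mem ?_ fun a => ?_
    · rw [hperm.nodup_iff, List.nodup_cons]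
      refine ⟨?_, h1.map (Option.some_injective _)⟩
      simp
    · rw [hperm.mem_iff]
      cases a with
      | none => simp
      | some a =>
        simp only [List.mem_cons, List.mem_map]
        exact Or.inr ⟨a, h2 a, rfl⟩
  convert h3 using 1
  funext x
  have hb : b ∉ s ∧ b ∉ t := by
    rw [hl, List.nodup_append] at h1
    refine ⟨fun h => ?_, fun h => ?_⟩
    · exact h1.2.2 b h b (by simp) rfl
    · have := h1.2.1
      rw [List.nodup_cons] at this
      exact this.1 h
  have e1 : ∀ r : List ι, b ∉ r → r.map (Function.update (x ∘ some) b (x (some b) * x none)) =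
      (r.map some).map x := by
    intro r hr
    rw [List.map_map]
    apply List.map_congr_left
    intro a ha
    rw [Function.update_of_ne]
    rintro rfl
    exact hr ha
  show ((l.map (Function.update (x ∘ some) b (x (some b) * x none))).prod).trace = _
  rw [hl, List.map_append, List.map_cons, List.map_append, List.map_cons, List.map_cons,
    List.prod_append, List.prod_cons, List.prod_append, List.prod_cons, List.prod_cons,
    e1 s hb.1, e1 t hb.2, Function.update_self, mul_assoc (x (some b))]

/-- The product of traces belonging to a permutation. -/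
def tau {S : Type} [Fintype S] [DecidableEq S] (ρ : Equiv.Perm S) (x : S → Matrix κ κ R) : R :=
  ∑ s : S → κ, ∏ a, x a (s a) (s (ρ a))

lemma tau_option {S : Type} [Fintype S] [DecidableEq S] (ρ : Equiv.Perm (Option S))
    (x : Option S → Matrix κ κ R) : tau ρ x = ∑ s : S → κ, ∑ c : κ,
      (x none c ((ρ none).elim c s) * ∏ a, x (some a) (s a) ((ρ (some a)).elim c s)) := by
  rw [tau, ← (Equiv.piOptionEquivProd (β := fun _ : Option S => κ)).symm.sum_comp,
    Fintype.sum_prod_type, Finset.sum_comm]
  apply Finset.sum_congr rfl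
  intro s _
  apply Finset.sum_congr rfl
  intro c _
  have h1 : ∀ o : Option S, (Equiv.piOptionEquivProd (β := fun _ : Option S => κ)).symm (c, s) o =
      o.elim c s := by
    intro o
    cases o <;> rfl
  rw [Fintype.prod_option]
  simp only [h1]
  rfl

lemma tau_fix {S : Type} [Fintype S] [DecidableEq S] (ρ : Equiv.Perm (Option S))
    (h : ρ none = none) (x : Option S → Matrix κ κ R) :
    tau ρ x = (x none).trace * tau (Equiv.removeNone ρ) (x ∘ some) := by
  rw [tau_option, tau, Matrix.trace, Finset.sum_mul_sum, Finset.sum_comm]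
  apply Finset.sum_congr rfl
  intro c _
  apply Finset.sum_congr rfl
  intro s _
  rw [h]
  congr 1
  apply Finset.prod_congr rfl
  intro a _
  have h3 : ∃ x', ρ (some a) = some x' := by
    rw [← Option.ne_none_iff_exists']
    intro h4
    rw [← h] at h4
    exact Option.some_ne_none a (ρ.injective h4)
  rw [← Equiv.removeNone_some ρ h3]
  rfl

lemma tau_move {S : Type} [Fintype S] [DecidableEq S] (ρ : Equiv.Perm (Option S)) (b : S)
    (h : ρ (some b) = none) (x : Option S → Matrix κ κ R) :
    tau ρ x = tau (Equiv.removeNone ρ) (Function.update (x ∘ some) b (x (some b) * x none)) := by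
  rw [tau_option, tau]
  apply Finset.sum_congr rfl
  intro s _
  have hn : ρ none = some (Equiv.removeNone ρ b) := (Equiv.removeNone_none ρ h).symm
  have hs : ∀ a, a ≠ b → ρ (some a) = some (Equiv.removeNone ρ a) := by
    intro a ha
    have h3 : ∃ x', ρ (some a) = some x' := by
      rw [← Option.ne_none_iff_exists']
      intro h4
      rw [← h] at h4
      exact ha (Option.some_injective _ (ρ.injective h4))
    exact (Equiv.removeNone_some ρ h3).symm
  rw [← Finset.mul_prod_erase Finset.univ _ (Finset.mem_univ b), Function.update_self,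
    Matrix.mul_apply, Finset.sum_mul]
  apply Finset.sum_congr rfl
  intro c _
  rw [← Finset.mul_prod_erase Finset.univ _ (Finset.mem_univ b), h, hn]
  have h5 : ∀ a ∈ Finset.univ.erase b, x (some a) (s a) ((ρ (some a)).elim c s) =
      (Function.update (x ∘ some) b (x (some b) * x none)) a (s a)
        (s ((Equiv.removeNone ρ) a)) := by
    intro a ha
    have ha' := Finset.ne_of_mem_erase ha
    rw [hs a ha', Function.update_of_ne ha']
    rfl
  rw [Finset.prod_congr rfl h5]
  simp only [Option.elim]
  ring

lemma tau_reindex {S S' : Type} [Fintype S] [DecidableEq S] [Fintype S'] [DecidableEq S']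
    (e : S ≃ S') (ρ : Equiv.Perm S') (x : S' → Matrix κ κ R) :
    tau ρ x = tau ((e.trans ρ).trans e.symm) (x ∘ e) := by
  rw [tau, tau, ← (Equiv.arrowCongr e (Equiv.refl κ)).sum_comp]
  apply Finset.sum_congr rfl
  intro s _
  rw [← e.prod_comp]
  apply Finset.prod_congr rfl
  intro a _
  simp [Equiv.arrowCongr]

/-- The alternating sum. -/
def g0 {d : ℕ} (x : Fin d ⊕ Fin d → Matrix κ κ R) : R :=
  ∑ σ : Equiv.Perm (Fin d), Equiv.Perm.sign σ •
    ((List.ofFn fun p => x (Sum.inl (σ p)) * x (Sum.inr p)).prod).trace

lemma g0_mem (d : ℕ) : (g0 : (Fin d ⊕ Fin d → Matrix κ κ R) → R) ∈ TrF κ R (Fin d ⊕ Fin d) := by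
  have h1 : (g0 : (Fin d ⊕ Fin d → Matrix κ κ R) → R) =
      ∑ σ : Equiv.Perm (Fin d), Equiv.Perm.sign σ •
        (fun x : Fin d ⊕ Fin d → Matrix κ κ R =>
          ((List.ofFn fun p => x (Sum.inl (σ p)) * x (Sum.inr p)).prod).trace) := by
    funext x
    simp [g0, Finset.sum_apply]
  rw [h1]
  refine Submodule.sum_mem _ fun σ _ => ?_
  rw [Units.smul_def]
  refine zsmul_mem ?_ _
  have h2 : (fun x : Fin d ⊕ Fin d → Matrix κ κ R =>
      ((((List.finRange d).flatMap fun p =>
        [(Sum.inl (σ p) : Fin d ⊕ Fin d), Sum.inr p]).map x).prod).trace) ∈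
      TrF κ R (Fin d ⊕ Fin d) := by
    refine TrF_mem ?_ fun a => ?_
    · rw [List.nodup_flatMap]
      refine ⟨fun p _ => by simp, ?_⟩
      have h3 := List.nodup_finRange d
      rw [List.Nodup] at h3
      refine h3.imp ?_
      intro a b hab
      simp only [Function.onFun]
      intro z hz hz'
      simp only [List.mem_cons, List.not_mem_nil, or_false] at hz hz'
      rcases hz with rfl | rfl
      · rcases hz' with h | h
        · exact hab (σ.injective (Sum.inl_injective h))
        · cases h
      · rcases hz' with h | h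
        · cases h
        · exact hab (Sum.inr_injective h)
    · rw [List.mem_flatMap]
      rcases a with a | a
      · exact ⟨σ.symm a, List.mem_finRange _, by simp⟩
      · exact ⟨a, List.mem_finRange _, by simp⟩
  convert h2 using 1
  funext x
  congr 1
  rw [List.ofFn_eq_map]
  generalize List.finRange d = L
  induction L with
  | nil => simp
  | cons a L ih =>
    simp only [List.map_cons, List.prod_cons, List.flatMap_cons, List.map_append,
      List.prod_append, ih, List.map_nil, List.prod_nil, mul_one]

end Pool.Agent.X302.CZ
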