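import Pool.Agent.X302.CZ.Cond

/-!
# Values at matrix units
-/

set_option autoImplicit false
set_option linter.unusedSectionVars false

open Module

namespace Pool.Agent.X302.CZ

variable {κ : Type} [Fintype κ] [DecidableEq κ]

variable (R : Type) [CommRing R] in
/-- The matrix units with rows `i` and columns `j`. -/
def Eu {ι : Type} (i j : ι → κ) : ι → Matrix κ κ R := fun a => Matrix.single (i a) (j a) 1

open Classical in
/-- The tensor of a bijection, over the integers. -/
noncomputable def delZ {I J : Type} (e : J ≃ I) (i : I → κ) (j : J → κ) : ℤ :=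
  if ∀ a, j a = i (e a) then 1 else 0

lemma del_eq_delZ {I J : Type} (e : J ≃ I) (i : I → κ) (j : J → κ) :
    del e i j = (delZ e i j : ℝ) := by
  unfold del delZ
  split_ifs <;> simp

lemma delZ_of {I J : Type} {e : J ≃ I} {i : I → κ} {j : J → κ} (h : ∀ a, j a = i (e a)) :
    delZ e i j = 1 := if_pos h

lemma delZ_of_not {I J : Type} {e : J ≃ I} {i : I → κ} {j : J → κ} (h : ¬ ∀ a, j a = i (e a)) :
    delZ e i j = 0 := if_neg h

section
variable {R : Type} [CommRing R]

lemma prod_units : ∀ (n : ℕ) (a b : Fin (n + 1) → κ),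
    ((∀ p : Fin n, b p.castSucc = a p.succ) →
      (List.ofFn fun p => Matrix.single (a p) (b p) (1 : R)).prod =
        Matrix.single (a 0) (b (Fin.last n)) 1) ∧
    ((¬ ∀ p : Fin n, b p.castSucc = a p.succ) →
      (List.ofFn fun p => Matrix.single (a p) (b p) (1 : R)).prod = 0)
  | 0, a, b => by
    constructor
    · intro _
      simp
    · intro h
      exact absurd (fun p => Fin.elim0 p) h
  | n + 1, a, b => by
    obtain ⟨ih1, ih2⟩ := prod_units n (fun p => a p.succ) (fun p => b p.succ)
    rw [List.ofFn_succ, List.prod_cons]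
    by_cases h : ∀ p : Fin n, b p.castSucc.succ = a p.succ.succ
    · have h1 := ih1 h
      rw [h1]
      by_cases h0 : b 0 = a (Fin.succ 0)
      · constructor
        · intro _
          rw [h0, Matrix.single_mul_single_same, mul_one]
          rfl
        · intro h2
          exfalso
          apply h2
          intro p
          refine Fin.cases ?_ (fun q => ?_) p
          · exact h0
          · exact h q
      · constructor
        · intro h2
          exact absurd (h2 0) h0
        · intro _
          rw [Matrix.single_mul_single_of_ne _ _ _ _ h0]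
    · have h1 := ih2 h
      rw [h1, mul_zero]
      constructor
      · intro h2
        exfalso
        apply h
        intro p
        exact h2 p.succ
      · intro _
        rfl

lemma trace_units (n : ℕ) (a b : Fin (n + 1) → κ) :
    ((∀ p : Fin (n + 1), b p = a (p + 1)) →
      ((List.ofFn fun p => Matrix.single (a p) (b p) (1 : R)).prod).trace = 1) ∧
    ((¬ ∀ p : Fin (n + 1), b p = a (p + 1)) →
      ((List.ofFn fun p => Matrix.single (a p) (b p) (1 : R)).prod).trace = 0) := by
  obtain ⟨h1, h2⟩ := prod_units (R := R) n a b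
  by_cases h : ∀ p : Fin n, b p.castSucc = a p.succ
  · rw [h1 h]
    by_cases h0 : b (Fin.last n) = a 0
    · constructor
      · intro _
        rw [h0, Matrix.trace_single_eq_same]
      · intro h3
        exfalso
        apply h3
        intro p
        refine Fin.lastCases ?_ (fun q => ?_) p
        · rw [Fin.last_add_one]
          exact h0
        · rw [Fin.coeSucc_eq_succ]
          exact h q
    · constructor
      · intro h3
        exfalso
        apply h0
        have := h3 (Fin.last n)
        rwa [Fin.last_add_one] at this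
      · intro _
        rw [Matrix.trace_single_eq_of_ne _ _ _ (fun h4 => h0 h4.symm)]
  · rw [h2 h]
    constructor
    · intro h3
      exfalso
      apply h
      intro p
      have := h3 p.castSucc
      rwa [Fin.coeSucc_eq_succ] at this
    · intro _
      exact Matrix.trace_zero _ _

end

/-- The value of the trace of a word at matrix units. -/
lemma word_del {ι : Type} [Nonempty ι] {l : List ι} (h1 : l.Nodup) (h2 : ∀ a, a ∈ l) :
    ∃ ρ : Equiv.Perm ι, ∀ (R : Type) [CommRing R] (i j : ι → κ),
      ((l.map (Eu R i j)).prod).trace = (delZ ρ i j : R) := by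
  classical
  let e : Fin l.length ≃ ι := List.Nodup.getEquivOfForallMemList l h1 h2
  obtain ⟨n, hn⟩ : ∃ n, l.length = n + 1 := by
    obtain ⟨a⟩ := ‹Nonempty ι›
    have := List.length_pos_of_mem (h2 a)
    exact ⟨l.length - 1, by omega⟩
  let e' : Fin (n + 1) ≃ ι := (finCongr hn.symm).trans e
  refine ⟨(e'.symm.trans (Equiv.addRight 1)).trans e', fun R _ i j => ?_⟩
  have h3 : l.map (Eu R i j) =
      List.ofFn fun p : Fin (n + 1) => Matrix.single (i (e' p)) (j (e' p)) (1 : R) := by
    apply List.ext_getElem
    · simp [hn]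
    · intro q hq1 hq2
      rw [List.getElem_map, List.getElem_ofFn]
      rfl
  rw [h3]
  obtain ⟨h4, h5⟩ := trace_units (R := R) n (fun p => i (e' p)) (fun p => j (e' p))
  by_cases h : ∀ p : Fin (n + 1), j (e' p) = i (e' (p + 1))
  · rw [h4 h, delZ_of, Int.cast_one]
    intro a
    have := h (e'.symm a)
    rw [Equiv.apply_symm_apply] at this
    exact this
  · rw [h5 h, delZ_of_not, Int.cast_zero]
    intro h6
    apply h
    intro p
    have := h6 (e' p)
    simpa using this

/-- The value of a product of traces at matrix units. -/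
lemma tau_Eu {R : Type} [CommRing R] {S : Type} [Fintype S] [DecidableEq S] (ρ : Equiv.Perm S)
    (i j : S → κ) : tau ρ (Eu R i j) = (delZ ρ i j : R) := by
  rw [tau, Finset.sum_eq_single i]
  · by_cases h : ∀ a, j a = i (ρ a)
    · rw [delZ_of h, Int.cast_one]
      apply Finset.prod_eq_one
      intro a _
      rw [Eu, h a, Matrix.single_apply_same]
    · rw [delZ_of_not h, Int.cast_zero]
      push Not at h
      obtain ⟨a, ha⟩ := h
      apply Finset.prod_eq_zero (Finset.mem_univ a)
      rw [Eu, Matrix.single_apply_of_ne]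
      rintro ⟨_, h2⟩
      exact ha h2
  · intro s _ hs
    obtain ⟨a, ha⟩ := Function.ne_iff.1 hs
    apply Finset.prod_eq_zero (Finset.mem_univ a)
    rw [Eu, Matrix.single_apply_of_ne]
    rintro ⟨h2, _⟩
    exact ha h2.symm
  · intro h
    exact absurd (Finset.mem_univ _) h

lemma g0_map {R R' : Type} [CommRing R] [CommRing R'] (f : R →+* R') {d : ℕ}
    (x : Fin d ⊕ Fin d → Matrix κ κ R) :
    g0 (fun a => (x a).map f) = f (g0 x) := by
  rw [g0, g0, map_sum]
  apply Finset.sum_congr rfl
  intro σ _
  rw [Units.smul_def, Units.smul_def, map_zsmul, AddMonoidHom.map_trace]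
  congr 2
  have h1 := map_list_prod (f.mapMatrix (m := κ)) (List.ofFn fun p => x (Sum.inl (σ p)) * x (Sum.inr p))
  rw [List.map_ofFn] at h1
  refine Eq.trans ?_ h1.symm
  congr 2
  funext p
  show _ = f.mapMatrix (x (Sum.inl (σ p)) * x (Sum.inr p))
  rw [map_mul]
  rfl

lemma g0_Eu (R : Type) [CommRing R] {d : ℕ} (i j : Fin d ⊕ Fin d → κ) :
    g0 (Eu R i j) = ((g0 (Eu ℤ i j) : ℤ) : R) := by
  have h1 := g0_map (Int.castRingHom R) (Eu ℤ i j)
  rw [eq_intCast] at h1
  rw [← h1]
  congr 1
  funext a
  rw [Eu, Eu, Matrix.map_single, map_one]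

/-- `g0` does not vanish. -/
lemma g0_ne_zero {n : ℕ} (ν : Fin (n + 1) ≃ κ × κ) :
    ∃ i j : Fin (n + 1) ⊕ Fin (n + 1) → κ, g0 (Eu ℤ i j) ≠ 0 := by
  refine ⟨Sum.elim (fun p => (ν p).1) (fun p => (ν p).2),
    Sum.elim (fun p => (ν p).2) (fun p => (ν (p + 1)).1), ?_⟩
  rw [g0, Finset.sum_eq_single 1]
  · have h1 : (List.ofFn fun p : Fin (n + 1) =>
        Eu ℤ (Sum.elim (fun p => (ν p).1) (fun p => (ν p).2))
          (Sum.elim (fun p => (ν p).2) (fun p => (ν (p + 1)).1))
            (Sum.inl ((1 : Equiv.Perm (Fin (n + 1))) p)) *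
        Eu ℤ (Sum.elim (fun p => (ν p).1) (fun p => (ν p).2))
          (Sum.elim (fun p => (ν p).2) (fun p => (ν (p + 1)).1)) (Sum.inr p)) =
        List.ofFn fun p : Fin (n + 1) => Matrix.single (ν p).1 (ν (p + 1)).1 (1 : ℤ) := by
      congr 1
      funext p
      simp only [Eu, Sum.elim_inl, Sum.elim_inr, Equiv.Perm.one_apply]
      rw [Matrix.single_mul_single_same, mul_one]
    rw [h1, (trace_units (R := ℤ) n (fun p => (ν p).1) (fun p => (ν (p + 1)).1)).1
      (fun p => rfl)]
    simp
  · intro σ _ hσ
    have : ((List.ofFn fun p : Fin (n + 1) =>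
        Eu ℤ (Sum.elim (fun p => (ν p).1) (fun p => (ν p).2))
          (Sum.elim (fun p => (ν p).2) (fun p => (ν (p + 1)).1)) (Sum.inl (σ p)) *
        Eu ℤ (Sum.elim (fun p => (ν p).1) (fun p => (ν p).2))
          (Sum.elim (fun p => (ν p).2) (fun p => (ν (p + 1)).1)) (Sum.inr p)).prod).trace = 0 := by
      simp only [Eu, Sum.elim_inl, Sum.elim_inr]
      by_cases h : ∀ p, (ν (σ p)).2 = (ν p).2
      · have h1 : (List.ofFn fun p : Fin (n + 1) =>
            Matrix.single (ν (σ p)).1 (ν (σ p)).2 (1 : ℤ) *
              Matrix.single (ν p).2 (ν (p + 1)).1 (1 : ℤ)) =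
            List.ofFn fun p : Fin (n + 1) => Matrix.single (ν (σ p)).1 (ν (p + 1)).1 (1 : ℤ) := by
          congr 1
          funext p
          rw [h p, Matrix.single_mul_single_same, mul_one]
        rw [h1]
        refine (trace_units (R := ℤ) n (fun p => (ν (σ p)).1) (fun p => (ν (p + 1)).1)).2 ?_
        intro h2
        apply hσ
        ext1 q
        apply ν.injective
        refine Prod.ext ?_ (h q)
        have := h2 (q - 1)
        rw [sub_add_cancel] at this
        exact this.symm
      · push Not at h
        obtain ⟨p, hp⟩ := h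
        rw [List.prod_eq_zero, Matrix.trace_zero]
        rw [List.mem_ofFn]
        refine ⟨p, ?_⟩
        exact Matrix.single_mul_single_of_ne _ _ _ _ hp _
    rw [this, smul_zero]
  · intro h
    exact absurd (Finset.mem_univ _) h

end Pool.Agent.X302.CZ
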